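import Pool.Agent.Lib.MP_4a7415_co.Good

/-! # Coercivity in the sum norm -/

namespace Pool.Agent.MP4a7415

open Finset

/-- The constant `B`. -/
def cB (q r : ℕ) : ℕ := 2 ^ (q + 2 * r)

/-- The constant `L`. -/
def cL (q r : ℕ) : ℕ := 2 * cB q r * q.choose r

theorem cB_pos (q r : ℕ) : 0 < cB q r := by
  unfold cB
  positivity

theorem cL_pos {q r : ℕ} (hqr : r ≤ q) : 0 < cL q r :=
  Nat.mul_pos (Nat.mul_pos (by norm_num) (cB_pos q r)) (Nat.choose_pos hqr)

/-- The sum over a block. -/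
def evZ {n : ℕ} (r : ℕ) (y : Finset (Fin n) → ℤ) (e : Finset (Fin n)) : ℤ :=
  ∑ T ∈ powersetCard r e, y T

theorem evZ_cast {n r : ℕ} (y : Finset (Fin n) → ℤ) (e : Finset (Fin n)) :
    ((evZ r y e : ℤ) : ℝ) = ev r (fun R => (y R : ℝ)) e := by
  rw [evZ, ev, Int.cast_sum]

theorem layer {ι : Type*} (s : Finset ι) (a : ι → ℕ) {M : ℕ} (hM : ∀ i ∈ s, a i ≤ M) :
    ∑ t ∈ Icc 1 M, (s.filter fun i => t ≤ a i).card = ∑ i ∈ s, a i := by
  simp only [card_filter]
  rw [sum_comm]
  refine sum_congr rfl fun i hi => ?_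
  rw [← card_filter]
  have : (Icc 1 M).filter (fun t => t ≤ a i) = Icc 1 (a i) := by
    ext t
    simp only [mem_filter, mem_Icc]
    have := hM i hi
    omega
  rw [this]
  simp

/-- One good level. -/
theorem level {n q r : ℕ} (hqr : r ≤ q) (hn : q + r ≤ n) {p : ℝ}
    {G : Finset (Finset (Fin n))} (hG : Good1 n q r (2 * cL q r) p G)
    (y : Finset (Fin n) → ℤ) {t : ℕ} (ht : 1 ≤ t)
    (hgood : ((Blk n r).filter fun R => t ≤ cL q r * (y R).natAbs).card ≤
      2 * cL q r * ((Blk n r).filter fun R => t ≤ (y R).natAbs).card) :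
    p * (n - r).choose (q - r) * ((Blk n r).filter fun R => t ≤ (y R).natAbs).card ≤
      2 * c0 q r * (G.filter fun e => t ≤ 2 * cB q r * (evZ r y e).natAbs).card := by
  classical
  have hc0 : (0 : ℝ) < c0 q r := by exact_mod_cast c0_pos hqr
  have hB : (0 : ℝ) < cB q r := by exact_mod_cast cB_pos q r
  have hL : (0 : ℝ) < cL q r := by exact_mod_cast cL_pos hqr
  have ht0 : (0 : ℝ) < t := by exact_mod_cast ht
  set A := (Blk n r).filter fun R => t ≤ (y R).natAbs with hA
  set S := (Blk n r).filter fun R => t ≤ cL q r * (y R).natAbs with hS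
  rcases Nat.eq_zero_or_pos A.card with hz | hpos
  · rw [hz, Nat.cast_zero, mul_zero]
    positivity
  have hAS : A ⊆ S := by
    intro R hR
    rw [hA, mem_filter] at hR
    rw [hS, mem_filter]
    refine ⟨hR.1, hR.2.trans ?_⟩
    exact Nat.le_mul_of_pos_left _ (cL_pos hqr)
  have hAr : ∀ R ∈ A, R.card = r := fun R hR =>
    (mem_powersetCard.1 (mem_filter.1 hR).1).2
  let z : Finset (Fin n) → ℝ := fun R => if R ∈ S then (cB q r / t : ℝ) * y R else 0
  have hz0 : ∀ R, R ∉ S → z R = 0 := fun R hR => if_neg hR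
  have habs : ∀ R, |(y R : ℝ)| = ((y R).natAbs : ℝ) := fun R => by
    rw [Nat.cast_natAbs, Int.cast_abs]
  have hzA : ∀ R ∈ A, 2 ^ (q + 2 * r) ≤ |z R| := by
    intro R hR
    have h1 : z R = (cB q r / t : ℝ) * y R := if_pos (hAS hR)
    rw [h1, abs_mul, habs, abs_of_nonneg (by positivity)]
    have h2 : (t : ℝ) ≤ ((y R).natAbs : ℝ) := by exact_mod_cast (mem_filter.1 hR).2
    have h3 : (cB q r : ℝ) = 2 ^ (q + 2 * r) := by simp [cB]
    rw [← h3, div_mul_eq_mul_div, le_div_iff₀ ht0]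
    exact mul_le_mul_of_nonneg_left h2 hB.le
  have hcount := heavy_count hqr hn z A hAr hzA
  have hmem : A.card ∈ Icc 1 (n.choose r) := by
    rw [mem_Icc]
    refine ⟨hpos, ?_⟩
    have := card_le_card (filter_subset (fun R => t ≤ (y R).natAbs) (Blk n r))
    rw [card_powersetCard, card_univ, Fintype.card_fin] at this
    exact this
  have h4 := hG A.card hmem S (filter_subset _ _) hgood z hz0 hcount
  -- heavy blocks of `z` in `G`
  have hsub : G ∩ heavy n q r z ⊆ G.filter fun e => t ≤ 2 * cB q r * (evZ r y e).natAbs := by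
    intro e he
    rw [mem_inter, heavy, mem_filter, mem_powersetCard] at he
    obtain ⟨heG, ⟨-, heq⟩, h1⟩ := he
    rw [mem_filter]
    refine ⟨heG, ?_⟩
    -- the truncated sum
    have e1 : ev r z e = (cB q r / t : ℝ) *
        ∑ T ∈ powersetCard r e, if T ∈ S then (y T : ℝ) else 0 := by
      rw [ev, mul_sum]
      refine sum_congr rfl fun T _ => ?_
      show (if T ∈ S then (cB q r / t : ℝ) * y T else 0) = _
      split_ifs <;> ring
    have e2 : |((evZ r y e : ℤ) : ℝ) - ∑ T ∈ powersetCard r e, if T ∈ S then (y T : ℝ) else 0| ≤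
        t / (2 * cB q r) := by
      rw [evZ, Int.cast_sum, ← sum_sub_distrib]
      refine (abs_sum_le_sum_abs _ _).trans ?_
      have h5 : ∀ T ∈ powersetCard r e,
          |(y T : ℝ) - if T ∈ S then (y T : ℝ) else 0| ≤ t / cL q r := by
        intro T hT
        by_cases hTS : T ∈ S
        · rw [if_pos hTS, sub_self, abs_zero]
          positivity
        · rw [if_neg hTS, sub_zero, habs]
          have h6 : ¬ t ≤ cL q r * (y T).natAbs := by
            intro h
            refine hTS ?_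
            rw [hS, mem_filter, mem_powersetCard]
            exact ⟨⟨subset_univ _, (mem_powersetCard.1 hT).2⟩, h⟩
          have h7 : ((cL q r * (y T).natAbs : ℕ) : ℝ) ≤ t := by
            exact_mod_cast (not_le.1 h6).le
          push_cast at h7
          rw [le_div_iff₀ hL]
          linarith
      refine (sum_le_sum h5).trans ?_
      rw [sum_const, card_powersetCard, heq, nsmul_eq_mul]
      have h8 : (cL q r : ℝ) = 2 * cB q r * q.choose r := by
        rw [cL]
        push_cast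
        ring
      have h9 : (0 : ℝ) < q.choose r := by exact_mod_cast Nat.choose_pos hqr
      rw [h8]
      apply le_of_eq
      field_simp
    have e3 : (t : ℝ) / cB q r ≤ |∑ T ∈ powersetCard r e, if T ∈ S then (y T : ℝ) else 0| := by
      rw [e1, abs_mul, abs_of_nonneg (by positivity)] at h1
      rw [div_le_iff₀ hB]
      rw [div_mul_eq_mul_div, le_div_iff₀ ht0, one_mul] at h1
      linarith
    have e4 : (t : ℝ) / (2 * cB q r) ≤ |((evZ r y e : ℤ) : ℝ)| := by
      have h10 := abs_sub_abs_le_abs_sub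
        (∑ T ∈ powersetCard r e, if T ∈ S then (y T : ℝ) else 0) ((evZ r y e : ℤ) : ℝ)
      rw [abs_sub_comm] at h10
      have h11 : (t : ℝ) / cB q r = t / (2 * cB q r) + t / (2 * cB q r) := by
        field_simp
        ring
      linarith
    rw [div_le_iff₀ (by positivity)] at e4
    have e5 : |((evZ r y e : ℤ) : ℝ)| = (((evZ r y e).natAbs : ℕ) : ℝ) := by
      rw [Nat.cast_natAbs, Int.cast_abs]
    rw [e5] at e4
    have e6 : (t : ℝ) ≤ ((2 * cB q r * (evZ r y e).natAbs : ℕ) : ℝ) := by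
      push_cast
      linarith
    exact_mod_cast e6
  have h12 : ((G ∩ heavy n q r z).card : ℝ) ≤
      (G.filter fun e => t ≤ 2 * cB q r * (evZ r y e).natAbs).card := by
    exact_mod_cast card_le_card hsub
  rw [div_lt_iff₀ (by positivity)] at h4
  calc p * (n - r).choose (q - r) * (A.card : ℝ) = p * (A.card * (n - r).choose (q - r)) := by
        ring
    _ ≤ (G ∩ heavy n q r z).card * (2 * c0 q r) := h4.le
    _ ≤ (G.filter fun e => t ≤ 2 * cB q r * (evZ r y e).natAbs).card * (2 * c0 q r) :=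
        mul_le_mul_of_nonneg_right h12 (by positivity)
    _ = _ := by ring

/-- Coercivity for integer vectors. -/
theorem coer_int {n q r : ℕ} (hqr : r ≤ q) (hn : q + r ≤ n) {p : ℝ} (h0 : 0 ≤ p)
    {G : Finset (Finset (Fin n))} (hG : Good1 n q r (2 * cL q r) p G)
    (y : Finset (Fin n) → ℤ) :
    p * (n - r).choose (q - r) * ∑ R ∈ Blk n r, |(y R : ℝ)| ≤
      8 * cB q r * c0 q r * ∑ e ∈ G, |((evZ r y e : ℤ) : ℝ)| := by
  classical
  have hL : 0 < cL q r := cL_pos hqr
  have hL' : (0 : ℝ) < cL q r := by exact_mod_cast hL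
  obtain ⟨D, hD⟩ : ∃ D, D = p * ((n - r).choose (q - r) : ℝ) := ⟨_, rfl⟩
  have hD0 : 0 ≤ D := by
    rw [hD]
    positivity
  -- a bound for everything
  obtain ⟨M, hM1, hM2, hM3⟩ : ∃ M : ℕ, (∀ R ∈ Blk n r, (y R).natAbs ≤ M) ∧
      (∀ R ∈ Blk n r, cL q r * (y R).natAbs ≤ M) ∧
      (∀ e ∈ G, 2 * cB q r * (evZ r y e).natAbs ≤ M) := by
    refine ⟨∑ R ∈ Blk n r, (y R).natAbs + ∑ R ∈ Blk n r, cL q r * (y R).natAbs +
      ∑ e ∈ G, 2 * cB q r * (evZ r y e).natAbs, ?_, ?_, ?_⟩
    · intro R hR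
      have := single_le_sum (f := fun R => (y R).natAbs) (fun _ _ => Nat.zero_le _) hR
      omega
    · intro R hR
      have := single_le_sum (f := fun R => cL q r * (y R).natAbs) (fun _ _ => Nat.zero_le _) hR
      omega
    · intro e he
      have := single_le_sum (f := fun e => 2 * cB q r * (evZ r y e).natAbs)
        (fun _ _ => Nat.zero_le _) he
      omega
  have l1 := layer (Blk n r) (fun R => (y R).natAbs) hM1
  have l2 := layer (Blk n r) (fun R => cL q r * (y R).natAbs) hM2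
  have l3 := layer G (fun e => 2 * cB q r * (evZ r y e).natAbs) hM3
  have hterm : ∀ t ∈ Icc 1 M, D * ((Blk n r).filter fun R => t ≤ (y R).natAbs).card ≤
      2 * c0 q r * (G.filter fun e => t ≤ 2 * cB q r * (evZ r y e).natAbs).card +
      D / (2 * cL q r) * ((Blk n r).filter fun R => t ≤ cL q r * (y R).natAbs).card := by
    intro t ht
    rw [mem_Icc] at ht
    by_cases hg : ((Blk n r).filter fun R => t ≤ cL q r * (y R).natAbs).card ≤
      2 * cL q r * ((Blk n r).filter fun R => t ≤ (y R).natAbs).card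
    · have h1 := level hqr hn hG y ht.1 hg
      rw [← hD] at h1
      have h2 : 0 ≤ D / (2 * cL q r) *
          ((Blk n r).filter fun R => t ≤ cL q r * (y R).natAbs).card := by positivity
      linarith
    · have h1 : ((2 * cL q r * ((Blk n r).filter fun R => t ≤ (y R).natAbs).card : ℕ) : ℝ) ≤
          (((Blk n r).filter fun R => t ≤ cL q r * (y R).natAbs).card : ℝ) := by
        exact_mod_cast (not_le.1 hg).le
      push_cast at h1
      have h2 : 0 ≤ (2 * c0 q r * (G.filter fun e =>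
          t ≤ 2 * cB q r * (evZ r y e).natAbs).card : ℝ) := by positivity
      have h3 := mul_le_mul_of_nonneg_left h1 (show 0 ≤ D / (2 * cL q r) by positivity)
      have h4 : D / (2 * cL q r) *
          (2 * cL q r * ((Blk n r).filter fun R => t ≤ (y R).natAbs).card) =
          D * ((Blk n r).filter fun R => t ≤ (y R).natAbs).card := by
        field_simp
      linarith
  have hsum := sum_le_sum hterm
  rw [← mul_sum, sum_add_distrib, ← mul_sum, ← mul_sum] at hsum
  have c1 : ∑ t ∈ Icc 1 M, (((Blk n r).filter fun R => t ≤ (y R).natAbs).card : ℝ) =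
      ∑ R ∈ Blk n r, |(y R : ℝ)| := by
    have : ∑ t ∈ Icc 1 M, (((Blk n r).filter fun R => t ≤ (y R).natAbs).card : ℝ) =
      ((∑ R ∈ Blk n r, (y R).natAbs : ℕ) : ℝ) := by
      rw [← l1]
      push_cast
      rfl
    rw [this]
    push_cast
    exact sum_congr rfl fun R _ => by rw [Nat.cast_natAbs, Int.cast_abs]
  have c2 : ∑ t ∈ Icc 1 M, (((Blk n r).filter fun R => t ≤ cL q r * (y R).natAbs).card : ℝ) =
      cL q r * ∑ R ∈ Blk n r, |(y R : ℝ)| := by
    have : ∑ t ∈ Icc 1 M, (((Blk n r).filter fun R => t ≤ cL q r * (y R).natAbs).card : ℝ) =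
      ((∑ R ∈ Blk n r, cL q r * (y R).natAbs : ℕ) : ℝ) := by
      rw [← l2]
      push_cast
      rfl
    rw [this, mul_sum]
    push_cast
    exact sum_congr rfl fun R _ => by rw [Nat.cast_natAbs, Int.cast_abs]
  have c3 : ∑ t ∈ Icc 1 M, ((G.filter fun e => t ≤ 2 * cB q r * (evZ r y e).natAbs).card : ℝ) =
      2 * cB q r * ∑ e ∈ G, |((evZ r y e : ℤ) : ℝ)| := by
    have : ∑ t ∈ Icc 1 M, ((G.filter fun e => t ≤ 2 * cB q r * (evZ r y e).natAbs).card : ℝ) =
      ((∑ e ∈ G, 2 * cB q r * (evZ r y e).natAbs : ℕ) : ℝ) := by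
      rw [← l3]
      push_cast
      rfl
    rw [this, mul_sum]
    push_cast
    exact sum_congr rfl fun e _ => by rw [Nat.cast_natAbs, Int.cast_abs]
  rw [c1, c2, c3] at hsum
  rw [← hD]
  have c4 : D / (2 * cL q r) * (cL q r * ∑ R ∈ Blk n r, |(y R : ℝ)|) =
      D * (∑ R ∈ Blk n r, |(y R : ℝ)|) / 2 := by
    field_simp
  rw [c4] at hsum
  linarith

/-- Coercivity for real vectors. -/
theorem coer {n q r : ℕ} (hqr : r ≤ q) (hn : q + r ≤ n) {p : ℝ} (h0 : 0 ≤ p)
    {G : Finset (Finset (Fin n))} (hG : Good1 n q r (2 * cL q r) p G)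
    (y : Finset (Fin n) → ℝ) :
    p * (n - r).choose (q - r) * ∑ R ∈ Blk n r, |y R| ≤
      8 * cB q r * c0 q r * ∑ e ∈ G, |ev r y e| := by
  obtain ⟨D, hD⟩ : ∃ D, D = p * ((n - r).choose (q - r) : ℝ) := ⟨_, rfl⟩
  have hD0 : 0 ≤ D := by
    rw [hD]
    positivity
  obtain ⟨κ, hκ⟩ : ∃ κ : ℝ, κ = 8 * cB q r * c0 q r := ⟨_, rfl⟩
  have hκ0 : 0 ≤ κ := by
    rw [hκ]
    positivity
  rw [← hD, ← hκ]
  -- errors of rounding
  obtain ⟨C, hC⟩ : ∃ C : ℝ, C = D * (Blk n r).card + κ * ∑ e ∈ G, ((powersetCard r e).card : ℝ) :=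
    ⟨_, rfl⟩
  have key : ∀ T : ℕ, (T : ℝ) * (D * ∑ R ∈ Blk n r, |y R| - κ * ∑ e ∈ G, |ev r y e|) ≤ C := by
    intro T
    have h1 := coer_int hqr hn h0 hG (fun R => ⌊(T : ℝ) * y R⌋)
    rw [← hD, ← hκ] at h1
    have hfl : ∀ x : ℝ, |(⌊x⌋ : ℝ) - x| ≤ 1 := by
      intro x
      rw [abs_le]
      have := Int.floor_le x
      have := Int.lt_floor_add_one x
      constructor <;> linarith
    have h2 : ∑ R ∈ Blk n r, (T : ℝ) * |y R| - (Blk n r).card ≤
        ∑ R ∈ Blk n r, |((⌊(T : ℝ) * y R⌋ : ℤ) : ℝ)| := by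
      have : ((Blk n r).card : ℝ) = ∑ R ∈ Blk n r, (1 : ℝ) := by simp
      rw [this, ← sum_sub_distrib]
      refine sum_le_sum fun R _ => ?_
      have h3 := hfl (T * y R)
      have h4 := abs_sub_abs_le_abs_sub ((T : ℝ) * y R) ((⌊(T : ℝ) * y R⌋ : ℤ) : ℝ)
      rw [abs_sub_comm, abs_mul, Nat.abs_cast] at h4
      linarith
    have h5 : ∑ e ∈ G, |((evZ r (fun R => ⌊(T : ℝ) * y R⌋) e : ℤ) : ℝ)| ≤
        ∑ e ∈ G, (T : ℝ) * |ev r y e| + ∑ e ∈ G, ((powersetCard r e).card : ℝ) := by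
      rw [← sum_add_distrib]
      refine sum_le_sum fun e _ => ?_
      have h6 : |((evZ r (fun R => ⌊(T : ℝ) * y R⌋) e : ℤ) : ℝ) - T * ev r y e| ≤
          (powersetCard r e).card := by
        rw [evZ_cast, ev, ev, mul_sum, ← sum_sub_distrib]
        refine (abs_sum_le_sum_abs _ _).trans ?_
        refine (sum_le_sum fun R _ => hfl (T * y R)).trans ?_
        simp
      have h7 := abs_sub_abs_le_abs_sub
        ((evZ r (fun R => ⌊(T : ℝ) * y R⌋) e : ℤ) : ℝ) (T * ev r y e)
      rw [abs_mul, Nat.abs_cast] at h7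
      linarith
    have h8 := mul_le_mul_of_nonneg_left h2 hD0
    have h9 := mul_le_mul_of_nonneg_left h5 hκ0
    rw [← mul_sum] at h8 h9
    rw [hC]
    linarith
  by_contra hc
  push Not at hc
  have hpos : 0 < D * ∑ R ∈ Blk n r, |y R| - κ * ∑ e ∈ G, |ev r y e| := by linarith
  obtain ⟨T, hT⟩ := exists_nat_gt (C / (D * ∑ R ∈ Blk n r, |y R| - κ * ∑ e ∈ G, |ev r y e|))
  rw [div_lt_iff₀ hpos] at hT
  have := key T
  linarith

end Pool.Agent.MP4a7415
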