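import Pool.Agent.Lib.MP_4a7415_co.Gadget

/-! # Many heavy blocks -/

namespace Pool.Agent.MP4a7415

open Finset

theorem count_blocks {n q r : ℕ} (hqr : r ≤ q) (hn : q + r ≤ n)
    (A E : Finset (Finset (Fin n))) (hA : ∀ R ∈ A, R.card = r) (hE : ∀ e ∈ E, e.card = q)
    (h : ∀ R ∈ A, ∀ W : Finset (Fin n), W.card = q → Disjoint R W → ∃ e ∈ E, e ⊆ R ∪ W) :
    A.card * (n - r).choose (q - r) ≤ E.card * (q.choose r * (q + r).choose r) := by
  classical
  -- the pairs
  let P : Finset (Finset (Fin n) × Finset (Fin n)) :=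
    A.biUnion fun R => (powersetCard q (univ \ R)).image fun W => (R, W)
  have memP : ∀ x : Finset (Fin n) × Finset (Fin n),
      x ∈ P ↔ x.1 ∈ A ∧ x.2.card = q ∧ Disjoint x.1 x.2 := by
    rintro ⟨R, W⟩
    simp only [P, mem_biUnion, mem_image, mem_powersetCard, Prod.mk.injEq]
    constructor
    · rintro ⟨R', hR', W', ⟨h1, h2⟩, rfl, rfl⟩
      exact ⟨hR', h2, disjoint_of_subset_right h1 disjoint_sdiff⟩
    · rintro ⟨h1, h2, h3⟩
      exact ⟨R, h1, W, ⟨subset_sdiff.2 ⟨subset_univ _, h3.symm⟩, h2⟩, rfl, rfl⟩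
  have cardP : P.card = A.card * (n - r).choose q := by
    rw [card_biUnion]
    · rw [sum_congr rfl (g := fun _ => (n - r).choose q), sum_const, smul_eq_mul]
      intro R hR
      rw [card_image_of_injective _ (fun a b hab => (Prod.mk.inj hab).2), card_powersetCard,
        card_sdiff_of_subset (subset_univ _), card_univ, Fintype.card_fin, hA R hR]
    · intro R _ R' _ hne
      rw [Function.onFun, disjoint_left]
      intro x hx hx'
      rw [mem_image] at hx hx'
      obtain ⟨W, -, rfl⟩ := hx
      obtain ⟨W', -, h'⟩ := hx'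
      exact hne (Prod.mk.inj h').1.symm
  have hsub : P ⊆ E.biUnion fun e => P.filter fun x => e ⊆ x.1 ∪ x.2 := by
    intro x hx
    obtain ⟨h1, h2, h3⟩ := (memP x).1 hx
    obtain ⟨e, he, hes⟩ := h x.1 h1 x.2 h2 h3
    exact mem_biUnion.2 ⟨e, he, mem_filter.2 ⟨hx, hes⟩⟩
  have hfib : ∀ e ∈ E, (P.filter fun x => e ⊆ x.1 ∪ x.2).card ≤
      (n - q).choose r * (q + r).choose r := by
    intro e he
    let T : Finset (Finset (Fin n) × Finset (Fin n)) :=
      ((powersetCard (q + r) univ).filter fun X => e ⊆ X).biUnion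
        fun X => (powersetCard r X).image fun R => (X, R)
    have hT : T.card ≤ (n - q).choose r * (q + r).choose r := by
      refine card_biUnion_le.trans ?_
      have hc : ((powersetCard (q + r) (univ : Finset (Fin n))).filter fun X => e ⊆ X).card =
          (n - q).choose r := by
        rw [card_sup (subset_univ _) (by rw [hE e he]; omega), card_univ, Fintype.card_fin,
          hE e he, Nat.add_sub_cancel_left]
      refine (sum_le_card_nsmul _ _ ((q + r).choose r) ?_).trans ?_
      · intro X hX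
        rw [mem_filter, mem_powersetCard] at hX
        refine card_image_le.trans ?_
        rw [card_powersetCard, hX.1.2]
      · rw [hc, smul_eq_mul]
    refine le_trans ?_ hT
    refine card_le_card_of_injOn (fun x => (x.1 ∪ x.2, x.1)) ?_ ?_
    · intro x hx
      rw [mem_coe, mem_filter] at hx
      obtain ⟨h1, h2, h3⟩ := (memP x).1 hx.1
      rw [mem_coe, mem_biUnion]
      refine ⟨x.1 ∪ x.2, mem_filter.2 ⟨mem_powersetCard.2 ⟨subset_univ _, ?_⟩, hx.2⟩,
        mem_image.2 ⟨x.1, mem_powersetCard.2 ⟨subset_union_left, hA _ h1⟩, rfl⟩⟩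
      rw [card_union_of_disjoint h3, h2, hA _ h1, add_comm]
    · intro x hx x' hx' heq
      rw [mem_coe, mem_filter] at hx hx'
      obtain ⟨-, -, h3⟩ := (memP x).1 hx.1
      obtain ⟨-, -, h3'⟩ := (memP x').1 hx'.1
      obtain ⟨he1, he2⟩ := Prod.mk.inj heq
      refine Prod.ext he2 ?_
      have e1 : x.2 = (x.1 ∪ x.2) \ x.1 := (union_sdiff_cancel_left h3).symm
      have e2 : x'.2 = (x'.1 ∪ x'.2) \ x'.1 := (union_sdiff_cancel_left h3').symm
      rw [e1, e2, he1, he2]
  have main : A.card * (n - r).choose q ≤ E.card * ((n - q).choose r * (q + r).choose r) := by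
    rw [← cardP]
    refine (card_le_card hsub).trans (card_biUnion_le.trans ?_)
    refine (sum_le_card_nsmul _ _ _ hfib).trans ?_
    rw [smul_eq_mul]
  -- cancel
  have hid : (n - r).choose q * q.choose r = (n - r).choose (q - r) * (n - q).choose r := by
    have h1 := Nat.choose_mul (n := n - r) (k := q) (s := q - r) (by omega)
    rw [Nat.choose_symm hqr] at h1
    have e1 : q - (q - r) = r := by omega
    have e2 : n - r - (q - r) = n - q := by omega
    rw [e1, e2] at h1
    exact h1
  have hpos : 0 < (n - q).choose r := Nat.choose_pos (by omega)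
  refine Nat.le_of_mul_le_mul_right ?_ hpos
  calc A.card * (n - r).choose (q - r) * (n - q).choose r
      = A.card * (n - r).choose q * q.choose r := by rw [mul_assoc, ← hid, ← mul_assoc]
    _ ≤ E.card * ((n - q).choose r * (q + r).choose r) * q.choose r :=
        Nat.mul_le_mul_right _ main
    _ = E.card * (q.choose r * (q + r).choose r) * (n - q).choose r := by ring

/-- The blocks on which the sum of `z` has absolute value at least one. -/
noncomputable def heavy (n q r : ℕ) (z : Finset (Fin n) → ℝ) : Finset (Finset (Fin n)) :=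
  (powersetCard q univ).filter fun e => 1 ≤ |ev r z e|

theorem heavy_count {n q r : ℕ} (hqr : r ≤ q) (hn : q + r ≤ n) (z : Finset (Fin n) → ℝ)
    (A : Finset (Finset (Fin n))) (hA : ∀ R ∈ A, R.card = r)
    (hz : ∀ R ∈ A, 2 ^ (q + 2 * r) ≤ |z R|) :
    A.card * (n - r).choose (q - r) ≤
      (heavy n q r z).card * (q.choose r * (q + r).choose r) := by
  refine count_blocks hqr hn A _ hA (fun e he => ?_) fun R hR W hW hd => ?_
  · rw [heavy, mem_filter, mem_powersetCard] at he
    exact he.1.2
  · obtain ⟨e, h1, h2, h3⟩ := exists_block hqr z hd (hA R hR) hW (hz R hR)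
    refine ⟨e, ?_, h1⟩
    rw [heavy, mem_filter, mem_powersetCard]
    refine ⟨⟨subset_univ _, h2⟩, ?_⟩
    exact le_of_mul_le_mul_left (by linarith) (by positivity : (0 : ℝ) < 2 ^ (q + 2 * r))

end Pool.Agent.MP4a7415
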