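import Pool.Agent.Lib.MP_4a7415_co.Coer

/-! # Duality: an almost uniform fractional solution, and then an integer one -/

namespace Pool.Agent.MP4a7415

open Finset

/-- Real solution inside a box, from coercivity and from almost regularity. -/
theorem exists_real {n r : ℕ} {G : Finset (Finset (Fin n))}
    {D c δ ε : ℝ} (hD : 0 < D) (hδ : δ < c * ε) (hε : 0 ≤ ε)
    (hco : ∀ y : Finset (Fin n) → ℝ, c * D * ∑ R ∈ Blk n r, |y R| ≤ ∑ e ∈ G, |ev r y e|)
    (hdeg : ∀ R ∈ Blk n r, |((G.filter (fun e => R ⊆ e)).card : ℝ) - D| ≤ δ * D) :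
    ∃ w : Finset (Fin n) → ℝ, (∀ e, |w e - 1 / D| ≤ ε / D) ∧
      ∀ R ∈ Blk n r, ∑ e ∈ G with R ⊆ e, w e = 1 := by
  classical
  -- the map
  let Φ : (Finset (Fin n) → ℝ) → (Finset (Fin n) → ℝ) := fun w R =>
    if R ∈ Blk n r then ∑ e ∈ G with R ⊆ e, w e else 1
  have hΦc : Continuous Φ := by
    refine continuous_pi fun R => ?_
    by_cases hR : R ∈ Blk n r
    · simp only [Φ, if_pos hR]
      exact continuous_finsetSum _ fun e _ => continuous_apply e
    · simp only [Φ, if_neg hR]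
      exact continuous_const
  let box : Set (Finset (Fin n) → ℝ) := Set.Icc (fun _ => (1 - ε) / D) (fun _ => (1 + ε) / D)
  have hcomp : IsCompact (Φ '' box) := isCompact_Icc.image hΦc
  have hconv : Convex ℝ (Φ '' box) := by
    rintro _ ⟨u, hu, rfl⟩ _ ⟨v, hv, rfl⟩ a b ha hb hab
    refine ⟨a • u + b • v, convex_Icc _ _ hu hv ha hb hab, ?_⟩
    ext R
    simp only [Φ, Pi.add_apply, Pi.smul_apply, smul_eq_mul]
    by_cases hR : R ∈ Blk n r
    · simp only [if_pos hR]
      rw [sum_add_distrib, mul_sum, mul_sum]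
    · simp only [if_neg hR]
      linarith
  by_cases hone : (fun _ => (1 : ℝ)) ∈ Φ '' box
  · obtain ⟨w, hw, he⟩ := hone
    refine ⟨w, fun e => ?_, fun R hR => ?_⟩
    · have h1 := hw.1 e
      have h2 := hw.2 e
      simp only at h1 h2
      rw [sub_div] at h1
      rw [add_div] at h2
      rw [abs_le]
      constructor <;> linarith
    · have := congrFun he R
      simp only [Φ, if_pos hR] at this
      exact this
  exfalso
  obtain ⟨f, u, hf1, hf2⟩ := geometric_hahn_banach_closed_point hconv hcomp.isClosed hone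
  -- coordinates of `f`
  let y : Finset (Fin n) → ℝ := fun R => f (Pi.single R 1)
  have hf : ∀ v : Finset (Fin n) → ℝ, f v = ∑ R, y R * v R := by
    intro v
    have h1 : v = ∑ R, v R • (Pi.single R (1 : ℝ) : Finset (Fin n) → ℝ) := by
      ext T
      rw [Finset.sum_apply, sum_eq_single T]
      · simp
      · intro R _ hR
        simp [Pi.single_eq_of_ne hR.symm]
      · intro h
        exact absurd (mem_univ T) h
    conv_lhs => rw [h1]
    rw [map_sum]
    refine sum_congr rfl fun R _ => ?_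
    rw [map_smul, smul_eq_mul, mul_comm]
  -- the worst point of the box
  let w : Finset (Fin n) → ℝ := fun e => if 0 ≤ ev r y e then (1 + ε) / D else (1 - ε) / D
  have hle : (1 - ε) / D ≤ (1 + ε) / D := by
    rw [div_le_div_iff_of_pos_right hD]
    linarith
  have hw : w ∈ box := by
    constructor
    · intro e
      simp only [w]
      split_ifs
      · exact hle
      · exact le_rfl
    · intro e
      simp only [w]
      split_ifs
      · exact le_rfl
      · exact hle
  have h1 := hf1 (Φ w) ⟨w, hw, rfl⟩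
  have h2 : f (Φ w) < f (fun _ => 1) := h1.trans hf2
  rw [hf, hf] at h2
  -- only `r`-sets matter
  have h3 : ∑ R ∈ Blk n r, y R * ∑ e ∈ G with R ⊆ e, w e < ∑ R ∈ Blk n r, y R := by
    have e1 : ∀ v : Finset (Fin n) → ℝ, ∑ R, y R * v R =
        ∑ R ∈ Blk n r, y R * v R + ∑ R ∈ univ \ Blk n r, y R * v R := by
      intro v
      rw [add_comm, sum_sdiff (subset_univ _)]
    rw [e1, e1] at h2
    have e2 : ∑ R ∈ Blk n r, y R * Φ w R = ∑ R ∈ Blk n r, y R * ∑ e ∈ G with R ⊆ e, w e := by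
      refine sum_congr rfl fun R hR => ?_
      simp only [Φ, if_pos hR]
    have e3 : ∑ R ∈ univ \ Blk n r, y R * Φ w R = ∑ R ∈ univ \ Blk n r, y R * 1 := by
      refine sum_congr rfl fun R hR => ?_
      rw [mem_sdiff] at hR
      simp only [Φ, if_neg hR.2]
    rw [e2, e3] at h2
    simp only [mul_one] at h2
    linarith
  -- exchange the sums
  have hsw : ∀ v : Finset (Fin n) → ℝ, ∑ R ∈ Blk n r, y R * ∑ e ∈ G with R ⊆ e, v e =
      ∑ e ∈ G, v e * ev r y e := by
    intro v
    have e1 : ∀ R ∈ Blk n r, y R * ∑ e ∈ G with R ⊆ e, v e =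
        ∑ e ∈ G, if R ⊆ e then y R * v e else 0 := by
      intro R _
      rw [mul_sum, sum_filter]
    rw [sum_congr rfl e1, sum_comm]
    refine sum_congr rfl fun e _ => ?_
    have h5 : powersetCard r e = (Blk n r).filter fun R => R ⊆ e := by
      ext R
      simp only [mem_powersetCard, mem_filter, subset_univ, true_and]
      exact and_comm
    rw [ev, h5, mul_sum, sum_filter]
    exact sum_congr rfl fun R _ => by split_ifs <;> ring
  rw [hsw] at h3
  have h4 : ∑ e ∈ G, w e * ev r y e = (1 / D) * ∑ e ∈ G, ev r y e +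
      (ε / D) * ∑ e ∈ G, |ev r y e| := by
    rw [mul_sum, mul_sum, ← sum_add_distrib]
    refine sum_congr rfl fun e _ => ?_
    simp only [w]
    split_ifs with h
    · rw [abs_of_nonneg h]
      ring
    · rw [abs_of_neg (not_le.1 h)]
      ring
  have h5 : ∑ e ∈ G, ev r y e = ∑ R ∈ Blk n r, y R * (G.filter (fun e => R ⊆ e)).card := by
    have := hsw fun _ => 1
    simp only [one_mul] at this
    rw [← this]
    refine sum_congr rfl fun R _ => ?_
    simp
  have h6 : D * ∑ R ∈ Blk n r, y R - δ * D * ∑ R ∈ Blk n r, |y R| ≤ ∑ e ∈ G, ev r y e := by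
    rw [h5, mul_sum, mul_sum, ← sum_sub_distrib]
    refine sum_le_sum fun R hR => ?_
    have h7 := hdeg R hR
    have h8 : |y R * (((G.filter (fun e => R ⊆ e)).card : ℝ) - D)| ≤ |y R| * (δ * D) := by
      rw [abs_mul]
      exact mul_le_mul_of_nonneg_left h7 (abs_nonneg _)
    have h9 := (abs_le.1 h8).1
    linarith
  have h7 := hco y
  rw [h4] at h3
  have h8 : (1 / D) * (D * ∑ R ∈ Blk n r, y R - δ * D * ∑ R ∈ Blk n r, |y R|) +
      (ε / D) * (c * D * ∑ R ∈ Blk n r, |y R|) < ∑ R ∈ Blk n r, y R := by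
    have e1 := mul_le_mul_of_nonneg_left h6 (show 0 ≤ 1 / D by positivity)
    have e2 := mul_le_mul_of_nonneg_left h7 (show 0 ≤ ε / D by positivity)
    linarith
  have h9 : (1 / D) * (D * ∑ R ∈ Blk n r, y R - δ * D * ∑ R ∈ Blk n r, |y R|) +
      (ε / D) * (c * D * ∑ R ∈ Blk n r, |y R|) =
      ∑ R ∈ Blk n r, y R + (c * ε - δ) * ∑ R ∈ Blk n r, |y R| := by
    field_simp
    ring
  rw [h9] at h8
  have h10 : 0 ≤ (c * ε - δ) * ∑ R ∈ Blk n r, |y R| :=
    mul_nonneg (by linarith) (sum_nonneg fun _ _ => abs_nonneg _)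
  linarith

/-- From a positive real solution to an integer one. -/
theorem exists_int {n r : ℕ} {G : Finset (Finset (Fin n))} {w : Finset (Fin n) → ℝ}
    (hw : ∀ R ∈ Blk n r, ∑ e ∈ G with R ⊆ e, w e = 1) {η : ℝ} (hη : 0 < η)
    (hpos : ∀ e ∈ G, η ≤ w e) :
    ∃ lam : ℕ, 0 < lam ∧ ∃ W : Finset (Fin n) → ℕ,
      (∀ R ∈ Blk n r, ∑ e ∈ G with R ⊆ e, W e = lam) ∧
      ∀ e ∈ G, |(W e : ℝ) - lam * w e| ≤ η * lam := by
  classical
  obtain ⟨T, hT⟩ := exists_nat_gt (1 / η)
  have hT0 : (0 : ℝ) < T := lt_trans (by positivity) hT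
  have hTn : 0 < T := by exact_mod_cast hT0
  have hTη : 1 ≤ η * T := by
    rw [div_lt_iff₀ hη] at hT
    linarith
  -- the error vector
  let err : ℕ → Finset (Fin n) → ℤ := fun j R =>
    if R ∈ Blk n r then ∑ e ∈ G with R ⊆ e, round ((T * j : ℕ) * w e) - (T * j : ℕ) else 0
  have hmaps : Set.MapsTo err Set.univ
      (Set.pi Set.univ fun _ => (Set.Icc (-(G.card : ℤ)) G.card)) := by
    intro j _ R _
    simp only [err]
    split_ifs with hR
    · have h1 : |((∑ e ∈ G with R ⊆ e, round ((T * j : ℕ) * w e) - (T * j : ℕ) : ℤ) : ℝ)| ≤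
          G.card := by
        push_cast
        have h2 : (∑ e ∈ G with R ⊆ e, ((round ((T : ℝ) * j * w e) : ℤ) : ℝ)) - (T : ℝ) * j =
            ∑ e ∈ G with R ⊆ e, (((round ((T : ℝ) * j * w e) : ℤ) : ℝ) - (T : ℝ) * j * w e) := by
          rw [sum_sub_distrib, ← mul_sum, hw R hR, mul_one]
        rw [h2]
        refine (abs_sum_le_sum_abs _ _).trans ?_
        have h3 : ∀ e ∈ G.filter (fun e => R ⊆ e),
            |((round ((T : ℝ) * j * w e) : ℤ) : ℝ) - (T : ℝ) * j * w e| ≤ 1 := by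
          intro e _
          have := abs_sub_round ((T : ℝ) * j * w e)
          rw [abs_sub_comm] at this
          linarith
        refine (sum_le_sum h3).trans ?_
        rw [sum_const, nsmul_eq_mul, mul_one]
        exact_mod_cast card_le_card (filter_subset _ _)
      rw [Set.mem_Icc, ← abs_le]
      exact_mod_cast h1
    · rw [Set.mem_Icc]
      constructor <;> omega
  have hfin : (Set.pi Set.univ fun _ : Finset (Fin n) =>
      (Set.Icc (-(G.card : ℤ)) G.card)).Finite := Set.Finite.pi fun _ => Set.finite_Icc _ _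
  obtain ⟨i, -, j, -, hij, he⟩ := Set.infinite_univ.exists_ne_map_eq_of_mapsTo hmaps hfin
  -- order them
  obtain ⟨i, j, hij, he⟩ : ∃ i j, i < j ∧ err i = err j := by
    rcases lt_or_gt_of_ne hij with h | h
    · exact ⟨i, j, h, he⟩
    · exact ⟨j, i, h, he.symm⟩
  have hlam : T ≤ T * (j - i) := Nat.le_mul_of_pos_right _ (by omega)
  have hlc : ((T * (j - i) : ℕ) : ℝ) = ((T * j : ℕ) : ℝ) - ((T * i : ℕ) : ℝ) := by
    rw [Nat.cast_mul, Nat.cast_sub hij.le]
    push_cast
    ring
  let U : Finset (Fin n) → ℤ := fun e => round (((T * j : ℕ) : ℝ) * w e) -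
    round (((T * i : ℕ) : ℝ) * w e)
  have hU : ∀ e, |(U e : ℝ) - (T * (j - i) : ℕ) * w e| ≤ 1 := by
    intro e
    have h1 := abs_sub_round (((T * j : ℕ) : ℝ) * w e)
    have h2 := abs_sub_round (((T * i : ℕ) : ℝ) * w e)
    have h3 : (U e : ℝ) - (T * (j - i) : ℕ) * w e =
        (((T * i : ℕ) : ℝ) * w e - round (((T * i : ℕ) : ℝ) * w e)) -
        (((T * j : ℕ) : ℝ) * w e - round (((T * j : ℕ) : ℝ) * w e)) := by
      rw [hlc]
      simp only [U]
      push_cast
      ring
    rw [h3]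
    refine (abs_sub _ _).trans ?_
    linarith
  have hge : (1 : ℝ) ≤ η * (T * (j - i) : ℕ) := by
    have : (T : ℝ) ≤ ((T * (j - i) : ℕ) : ℝ) := by exact_mod_cast hlam
    calc (1 : ℝ) ≤ η * T := hTη
      _ ≤ _ := mul_le_mul_of_nonneg_left this hη.le
  have hUpos : ∀ e ∈ G, 0 ≤ U e := by
    intro e he
    have h1 := (abs_le.1 (hU e)).1
    have h2 : η * (T * (j - i) : ℕ) ≤ (T * (j - i) : ℕ) * w e := by
      rw [mul_comm]
      exact mul_le_mul_of_nonneg_left (hpos e he) (Nat.cast_nonneg _)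
    have h3 : (0 : ℝ) ≤ (U e : ℝ) := by linarith
    exact_mod_cast h3
  refine ⟨T * (j - i), by omega, fun e => (U e).toNat, fun R hR => ?_, fun e he => ?_⟩
  · have h1 := congrFun he R
    simp only [err, if_pos hR] at h1
    have h2 : ∑ e ∈ G with R ⊆ e, U e = (T * (j - i) : ℕ) := by
      simp only [U]
      rw [sum_sub_distrib]
      have h4 : ((T * (j - i) : ℕ) : ℤ) = ((T * j : ℕ) : ℤ) - ((T * i : ℕ) : ℤ) := by
        have : ((T * (j - i) : ℕ) : ℝ) = ((((T * j : ℕ) : ℤ) - ((T * i : ℕ) : ℤ) : ℤ) : ℝ) := by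
          rw [hlc]
          push_cast
          ring
        exact_mod_cast this
      rw [h4]
      linarith
    have h3 : ((∑ e ∈ G with R ⊆ e, (U e).toNat : ℕ) : ℤ) = ((T * (j - i) : ℕ) : ℤ) := by
      rw [← h2, Nat.cast_sum]
      refine sum_congr rfl fun e he => ?_
      exact Int.toNat_of_nonneg (hUpos e (mem_filter.1 he).1)
    exact_mod_cast h3
  · have h1 : (((U e).toNat : ℕ) : ℝ) = (U e : ℝ) := by
      have := Int.toNat_of_nonneg (hUpos e he)
      exact_mod_cast this
    rw [h1]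
    exact (hU e).trans hge

end Pool.Agent.MP4a7415
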