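import Pool.Agent.Lib.MP_4a7415_co.Good

/-! # Below the threshold some `r`-set is uncovered: second moment -/

namespace Pool.Agent.MP4a7415

open Finset Filter Topology

/-- The blocks through `R`. -/
def star (n q : ℕ) (R : Finset (Fin n)) : Finset (Finset (Fin n)) :=
  (Blk n q).filter fun e => R ⊆ e

theorem star_subset (n q : ℕ) (R : Finset (Fin n)) : star n q R ⊆ Blk n q := filter_subset _ _

theorem star_card {n q r : ℕ} (hqr : r ≤ q) {R : Finset (Fin n)} (hR : R ∈ Blk n r) :
    (star n q R).card = (n - r).choose (q - r) := by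
  have hR' := (mem_powersetCard.1 hR).2
  rw [star, card_sup (subset_univ _) (by omega), card_univ, Fintype.card_fin, hR']

theorem star_inter {n q r : ℕ} (hqr : r < q) {R R' : Finset (Fin n)} (hR : R ∈ Blk n r)
    (hR' : R' ∈ Blk n r) (hne : R ≠ R') :
    (star n q R ∩ star n q R').card ≤ (n - (r + 1)).choose (q - (r + 1)) := by
  have h1 := (mem_powersetCard.1 hR).2
  have h2 := (mem_powersetCard.1 hR').2
  obtain ⟨x, hx, hxR⟩ : ∃ x ∈ R', x ∉ R := by
    by_contra hc
    push Not at hc
    exact hne (eq_of_subset_of_card_le hc (by omega)).symm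
  have h3 : (insert x R).card = r + 1 := by rw [card_insert_of_notMem hxR, h1]
  have h4 := card_sup (subset_univ (insert x R)) (q := q) (by rw [h3]; omega)
  rw [card_univ, Fintype.card_fin, h3] at h4
  rw [← h4]
  refine card_le_card fun e he => ?_
  rw [mem_inter, star, star, mem_filter, mem_filter] at he
  rw [mem_filter]
  exact ⟨he.1.1, insert_subset (he.2.2 hx) he.1.2⟩

/-- Number of uncovered sets. -/
noncomputable def unc (n q r : ℕ) (G : Finset (Finset (Fin n))) : ℝ := by
  classical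
  exact ∑ R ∈ Blk n r, if Disjoint G (star n q R) then (1 : ℝ) else 0

theorem exp_ind {n q : ℕ} {p : ℝ} {F : Finset (Finset (Fin n))} (hF : F ⊆ Blk n q)
    [∀ G : Finset (Finset (Fin n)), Decidable (Disjoint G F)] :
    ∑ G ∈ (Blk n q).powerset, wt (Blk n q).card p G * (if Disjoint G F then (1 : ℝ) else 0) =
      (1 - p) ^ F.card := by
  classical
  rw [← PrE_avoid hF p, PrE]
  refine sum_congr rfl fun G _ => ?_
  by_cases h : Disjoint G F
  · rw [Set.indicator_of_mem (show G ∈ {G | Disjoint G F} from h), if_pos h, mul_one]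
  · rw [Set.indicator_of_notMem (by simpa using h), if_neg h, mul_zero]

theorem mean_unc {n q r : ℕ} (hqr : r ≤ q) (p : ℝ) :
    ∑ G ∈ (Blk n q).powerset, wt (Blk n q).card p G * unc n q r G =
      n.choose r * (1 - p) ^ (n - r).choose (q - r) := by
  classical
  have h1 : ∀ G ∈ (Blk n q).powerset, wt (Blk n q).card p G * unc n q r G =
      ∑ R ∈ Blk n r, wt (Blk n q).card p G *
        (if Disjoint G (star n q R) then (1 : ℝ) else 0) := by
    intro G _
    rw [unc, mul_sum]
  rw [sum_congr rfl h1, sum_comm]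
  have h2 : ∀ R ∈ Blk n r, ∑ G ∈ (Blk n q).powerset, wt (Blk n q).card p G *
        (if Disjoint G (star n q R) then (1 : ℝ) else 0) =
        (1 - p) ^ (n - r).choose (q - r) := by
    intro R hR
    rw [exp_ind (star_subset n q R), star_card hqr hR]
  rw [sum_congr rfl h2, sum_const, card_powersetCard, card_univ, Fintype.card_fin, nsmul_eq_mul]

theorem second_unc {n q r : ℕ} (hqr : r < q) {p : ℝ} (h0 : 0 ≤ p) (h1 : p ≤ 1) :
    (1 - p) ^ (n - (r + 1)).choose (q - (r + 1)) *
      ∑ G ∈ (Blk n q).powerset, wt (Blk n q).card p G * unc n q r G ^ 2 ≤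
      n.choose r * (1 - p) ^ (n - r).choose (q - r) +
        (n.choose r * (1 - p) ^ (n - r).choose (q - r)) ^ 2 := by
  classical
  obtain ⟨u, hu⟩ : ∃ u, u = (1 - p) ^ (n - (r + 1)).choose (q - (r + 1)) := ⟨_, rfl⟩
  obtain ⟨v, hv⟩ : ∃ v, v = (1 - p) ^ (n - r).choose (q - r) := ⟨_, rfl⟩
  have hp0 : 0 ≤ 1 - p := by linarith
  have hu0 : 0 ≤ u := by rw [hu]; positivity
  have hv0 : 0 ≤ v := by rw [hv]; positivity
  have hu1 : u ≤ 1 := by
    rw [hu]
    exact pow_le_one₀ hp0 (by linarith)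
  rw [← hu, ← hv]
  have e1 : ∀ G ∈ (Blk n q).powerset, wt (Blk n q).card p G * unc n q r G ^ 2 =
      ∑ R ∈ Blk n r, ∑ R' ∈ Blk n r, wt (Blk n q).card p G *
        (if Disjoint G (star n q R ∪ star n q R') then (1 : ℝ) else 0) := by
    intro G _
    rw [unc, sq, sum_mul_sum, mul_sum]
    refine sum_congr rfl fun R _ => ?_
    rw [mul_sum]
    refine sum_congr rfl fun R' _ => ?_
    congr 1
    by_cases ha : Disjoint G (star n q R)
    · by_cases hb : Disjoint G (star n q R')
      · rw [if_pos ha, if_pos hb, if_pos (disjoint_union_right.2 ⟨ha, hb⟩), one_mul]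
      · rw [if_neg hb, if_neg (fun h => hb (disjoint_union_right.1 h).2), mul_zero]
    · rw [if_neg ha, if_neg (fun h => ha (disjoint_union_right.1 h).1), zero_mul]
  rw [sum_congr rfl e1, sum_comm]
  have e2 : ∀ R ∈ Blk n r, ∑ G ∈ (Blk n q).powerset, ∑ R' ∈ Blk n r,
      wt (Blk n q).card p G * (if Disjoint G (star n q R ∪ star n q R') then (1 : ℝ) else 0) =
      ∑ R' ∈ Blk n r, (1 - p) ^ (star n q R ∪ star n q R').card := by
    intro R _
    rw [sum_comm]
    refine sum_congr rfl fun R' _ => ?_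
    exact exp_ind (union_subset (star_subset n q R) (star_subset n q R'))
  rw [sum_congr rfl e2, mul_sum]
  have e3 : ∀ R ∈ Blk n r, u * ∑ R' ∈ Blk n r, (1 - p) ^ (star n q R ∪ star n q R').card ≤
      v + n.choose r * v ^ 2 := by
    intro R hR
    rw [← add_sum_erase _ _ hR, union_self, star_card hqr.le hR, ← hv, mul_add]
    refine add_le_add ?_ ?_
    · calc u * v ≤ 1 * v := mul_le_mul_of_nonneg_right hu1 hv0
        _ = v := one_mul v
    · rw [mul_sum]
      have e4 : ∀ R' ∈ (Blk n r).erase R,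
          u * (1 - p) ^ (star n q R ∪ star n q R').card ≤ v ^ 2 := by
        intro R' hR'
        rw [mem_erase] at hR'
        have h3 := star_inter hqr hR hR'.2 (Ne.symm hR'.1)
        have h4 := card_union_add_card_inter (star n q R) (star n q R')
        rw [star_card hqr.le hR, star_card hqr.le hR'.2] at h4
        rw [hu, hv, ← pow_add, ← pow_mul]
        refine pow_le_pow_of_le_one hp0 (by linarith) ?_
        omega
      refine (sum_le_sum e4).trans ?_
      rw [sum_const, nsmul_eq_mul]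
      refine mul_le_mul_of_nonneg_right ?_ (by positivity)
      have h5 : ((Blk n r).erase R).card ≤ (Blk n r).card := card_le_card (erase_subset _ _)
      rw [card_powersetCard, card_univ, Fintype.card_fin] at h5
      exact_mod_cast h5
  refine (sum_le_sum e3).trans ?_
  rw [sum_const, card_powersetCard, card_univ, Fintype.card_fin, nsmul_eq_mul]
  apply le_of_eq
  ring

/-- Chebyshev. -/
theorem cheb {n q r : ℕ} (hqr : r < q) {p : ℝ} (h0 : 0 ≤ p) (h1 : p ≤ 1) {μ u : ℝ}
    (hμ : μ = n.choose r * (1 - p) ^ (n - r).choose (q - r))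
    (hu : u = (1 - p) ^ (n - (r + 1)).choose (q - (r + 1))) (hμ0 : 0 < μ) (hu0 : 0 < u) :
    PrE (Blk n q) p {G | ∀ R ∈ Blk n r, ∃ e ∈ G, R ⊆ e} ≤ 1 / (u * μ) + (1 / u - 1) := by
  classical
  have hm := mean_unc (n := n) hqr.le p
  have hs := second_unc (n := n) hqr h0 h1
  rw [← hμ] at hm hs
  rw [← hu] at hs
  have hpr : PrE (Blk n q) p {G | ∀ R ∈ Blk n r, ∃ e ∈ G, R ⊆ e} * μ ^ 2 ≤
      ∑ G ∈ (Blk n q).powerset, wt (Blk n q).card p G * (unc n q r G - μ) ^ 2 := by
    rw [PrE, sum_mul]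
    refine sum_le_sum fun G hG => ?_
    have hw := wt_nonneg (N := (Blk n q).card) h0 h1 G
    by_cases h : G ∈ {G : Finset (Finset (Fin n)) | ∀ R ∈ Blk n r, ∃ e ∈ G, R ⊆ e}
    · rw [Set.indicator_of_mem h]
      have hz : unc n q r G = 0 := by
        rw [unc]
        refine sum_eq_zero fun R hR => ?_
        rw [if_neg]
        intro hd
        obtain ⟨e, he, hRe⟩ := h R hR
        refine disjoint_left.1 hd he ?_
        rw [star, mem_filter]
        exact ⟨mem_powerset.1 hG he, hRe⟩
      rw [hz, zero_sub, neg_sq]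
    · rw [Set.indicator_of_notMem h, zero_mul]
      positivity
  have hex : ∑ G ∈ (Blk n q).powerset, wt (Blk n q).card p G * (unc n q r G - μ) ^ 2 =
      ∑ G ∈ (Blk n q).powerset, wt (Blk n q).card p G * unc n q r G ^ 2 - μ ^ 2 := by
    have e1 : ∀ G ∈ (Blk n q).powerset, wt (Blk n q).card p G * (unc n q r G - μ) ^ 2 =
        wt (Blk n q).card p G * unc n q r G ^ 2 -
          2 * μ * (wt (Blk n q).card p G * unc n q r G) + μ ^ 2 * wt (Blk n q).card p G := by
      intro G _
      ring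
    rw [sum_congr rfl e1, sum_add_distrib, sum_sub_distrib, ← mul_sum, ← mul_sum, hm, sum_wt]
    ring
  rw [hex] at hpr
  obtain ⟨X, hX⟩ : ∃ X, X = ∑ G ∈ (Blk n q).powerset, wt (Blk n q).card p G * unc n q r G ^ 2 :=
    ⟨_, rfl⟩
  rw [← hX] at hs hpr
  have h2 : X ≤ (μ + μ ^ 2) / u := by
    rw [le_div_iff₀ hu0]
    linarith
  have h3 : PrE (Blk n q) p {G | ∀ R ∈ Blk n r, ∃ e ∈ G, R ⊆ e} * μ ^ 2 ≤
      (1 / (u * μ) + (1 / u - 1)) * μ ^ 2 := by
    have e2 : (1 / (u * μ) + (1 / u - 1)) * μ ^ 2 = (μ + μ ^ 2) / u - μ ^ 2 := by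
      field_simp
      ring
    rw [e2]
    linarith
  exact le_of_mul_le_mul_right h3 (by positivity)

theorem exp_le_one_sub {p : ℝ} (h0 : 0 ≤ p) (h1 : p ≤ 1 / 2) : Real.exp (-(2 * p)) ≤ 1 - p := by
  rw [Real.exp_neg]
  have h2 := Real.add_one_le_exp (2 * p)
  have h3 : 0 < Real.exp (2 * p) := Real.exp_pos _
  rw [inv_le_iff_one_le_mul₀ h3]
  nlinarith

theorem choose_ge {n r : ℕ} (hr : 1 ≤ r) (hn : 2 * r ≤ n) :
    (n : ℝ) / (2 * r.factorial) ≤ n.choose r := by
  have h1 := Nat.pow_le_choose (α := ℝ) r n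
  refine le_trans ?_ h1
  have h2 : (n : ℝ) / 2 ≤ ((n + 1 - r : ℕ) : ℝ) := by
    have : n ≤ 2 * (n + 1 - r) := by omega
    have : (n : ℝ) ≤ 2 * ((n + 1 - r : ℕ) : ℝ) := by exact_mod_cast this
    linarith
  have h3 : (1 : ℝ) ≤ ((n + 1 - r : ℕ) : ℝ) := by
    have : 1 ≤ n + 1 - r := by omega
    exact_mod_cast this
  have h4 : (n : ℝ) / 2 ≤ ((n + 1 - r : ℕ) : ℝ) ^ r := by
    refine h2.trans ?_
    exact le_self_pow₀ h3 (by omega)
  have h5 : (0 : ℝ) < r.factorial := by exact_mod_cast Nat.factorial_pos r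
  rw [← div_div]
  exact div_le_div_of_nonneg_right h4 h5.le

/-- The bound below the threshold. -/
theorem zero_bound {q r : ℕ} (hr : 1 ≤ r) (hqr : r < q) :
    ∃ b : ℕ → ℝ, Tendsto b atTop (𝓝 0) ∧ ∀ᶠ n : ℕ in atTop, ∀ p : ℝ, 0 ≤ p → p ≤ 1 →
      p ≤ 1 / 4 * (Real.log n / (n : ℝ) ^ (q - r)) →
      PrE (Blk n q) p {G | ∀ R ∈ Blk n r, ∃ e ∈ G, R ⊆ e} ≤ b n := by
  -- the two factors
  refine ⟨fun n => 2 * r.factorial * Real.exp (Real.log n / (2 * n) - Real.log n / 2) +
    (Real.exp (Real.log n / (2 * n)) - 1), ?_, ?_⟩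
  · have hl : Tendsto (fun n : ℕ => Real.log n) atTop atTop :=
      Real.tendsto_log_atTop.comp tendsto_natCast_atTop_atTop
    have h1 : Tendsto (fun n : ℕ => Real.log n / (2 * n)) atTop (𝓝 0) := by
      have h2 : Tendsto (fun x : ℝ => Real.log x / x) atTop (𝓝 0) := by
        have := Real.isLittleO_log_id_atTop.tendsto_div_nhds_zero
        simpa using this
      have h3 := (h2.comp tendsto_natCast_atTop_atTop).const_mul (1 / 2 : ℝ)
      rw [mul_zero] at h3
      refine h3.congr fun n => ?_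
      simp only [Function.comp]
      ring
    have h4 : Tendsto (fun n : ℕ => Real.log n / (2 * n) - Real.log n / 2) atTop atBot := by
      have h5 : Tendsto (fun n : ℕ => - (Real.log n / 2)) atTop atBot :=
        tendsto_neg_atTop_atBot.comp (hl.atTop_div_const (by norm_num))
      exact (h1.add_atBot h5).congr fun n => by ring
    have h6 := (Real.tendsto_exp_atBot.comp h4).const_mul (2 * (r.factorial : ℝ))
    have h7 := (Real.continuous_exp.tendsto 0).comp h1
    rw [Real.exp_zero] at h7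
    have h8 := h6.add (h7.sub_const 1)
    rw [mul_zero, sub_self, add_zero] at h8
    exact h8
  · have hbig : ∀ᶠ n : ℕ in atTop, Real.log n / n ≤ 1 := by
      filter_upwards [eventually_ge_atTop 1] with n hn
      have hn0 : (0 : ℝ) < n := by exact_mod_cast hn
      rw [div_le_one hn0]
      have := Real.log_le_sub_one_of_pos hn0
      linarith
    filter_upwards [hbig, eventually_ge_atTop (2 * q), eventually_ge_atTop 2] with
      n hlog hn hn2 p h0 h1 hp
    have hn0 : (0 : ℝ) < n := by exact_mod_cast (by omega : 0 < n)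
    have hn1 : (1 : ℝ) ≤ n := by exact_mod_cast (by omega : 1 ≤ n)
    have hl0 : 0 ≤ Real.log n := Real.log_nonneg hn1
    have hpow : (n : ℝ) ^ (q - r) = n * (n : ℝ) ^ (q - (r + 1)) := by
      rw [← pow_succ']
      congr 1
      omega
    -- `p ≤ 1/2`
    have hp1 : p ≤ 1 / 2 := by
      refine hp.trans ?_
      have h2 : Real.log n / (n : ℝ) ^ (q - r) ≤ Real.log n / n := by
        refine div_le_div_of_nonneg_left hl0 hn0 ?_
        exact le_self_pow₀ hn1 (by omega)
      linarith
    have hd : ((n - r).choose (q - r) : ℝ) ≤ (n : ℝ) ^ (q - r) := by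
      have : (n - r).choose (q - r) ≤ n ^ (q - r) :=
        (Nat.choose_le_pow _ _).trans (Nat.pow_le_pow_left (Nat.sub_le _ _) _)
      exact_mod_cast this
    have hk : ((n - (r + 1)).choose (q - (r + 1)) : ℝ) ≤ (n : ℝ) ^ (q - (r + 1)) := by
      have : (n - (r + 1)).choose (q - (r + 1)) ≤ n ^ (q - (r + 1)) :=
        (Nat.choose_le_pow _ _).trans (Nat.pow_le_pow_left (Nat.sub_le _ _) _)
      exact_mod_cast this
    have hpd : p * (n - r).choose (q - r) ≤ Real.log n / 4 := by
      calc p * (n - r).choose (q - r) ≤ 1 / 4 * (Real.log n / (n : ℝ) ^ (q - r)) *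
            (n : ℝ) ^ (q - r) := mul_le_mul hp hd (Nat.cast_nonneg _) (by positivity)
        _ = Real.log n / 4 := by field_simp
    have hpk : p * (n - (r + 1)).choose (q - (r + 1)) ≤ Real.log n / (4 * n) := by
      calc p * (n - (r + 1)).choose (q - (r + 1)) ≤ 1 / 4 * (Real.log n / (n : ℝ) ^ (q - r)) *
            (n : ℝ) ^ (q - (r + 1)) := mul_le_mul hp hk (Nat.cast_nonneg _) (by positivity)
        _ = Real.log n / (4 * n) := by
          rw [hpow]
          field_simp
    have hb := exp_le_one_sub h0 hp1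
    have hv : Real.exp (-(Real.log n / 2)) ≤ (1 - p) ^ (n - r).choose (q - r) := by
      refine le_trans ?_ (pow_le_pow_left₀ (Real.exp_pos _).le hb _)
      rw [← Real.exp_nat_mul, Real.exp_le_exp]
      linarith
    have hu : Real.exp (-(Real.log n / (2 * n))) ≤
        (1 - p) ^ (n - (r + 1)).choose (q - (r + 1)) := by
      refine le_trans ?_ (pow_le_pow_left₀ (Real.exp_pos _).le hb _)
      rw [← Real.exp_nat_mul, Real.exp_le_exp]
      have : Real.log n / (2 * n) = 2 * (Real.log n / (4 * n)) := by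
        field_simp
        ring
      rw [this]
      linarith
    have hN := choose_ge (n := n) hr (by omega)
    have hf : (0 : ℝ) < r.factorial := by exact_mod_cast Nat.factorial_pos r
    obtain ⟨μ, hμ⟩ : ∃ μ : ℝ, μ = n.choose r * (1 - p) ^ (n - r).choose (q - r) := ⟨_, rfl⟩
    obtain ⟨u, hu'⟩ : ∃ u : ℝ, u = (1 - p) ^ (n - (r + 1)).choose (q - (r + 1)) := ⟨_, rfl⟩
    rw [← hu'] at hu
    have hμ1 : n / (2 * r.factorial) * Real.exp (-(Real.log n / 2)) ≤ μ := by
      rw [hμ]
      exact mul_le_mul hN hv (Real.exp_pos _).le (Nat.cast_nonneg _)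
    have hpos1 : (0 : ℝ) < n / (2 * r.factorial) * Real.exp (-(Real.log n / 2)) := by
      positivity
    have hμ0 : 0 < μ := lt_of_lt_of_le hpos1 hμ1
    have hu0 : 0 < u := lt_of_lt_of_le (Real.exp_pos _) hu
    refine (cheb hqr h0 h1 hμ hu' hμ0 hu0).trans ?_
    have e1 : 1 / u ≤ Real.exp (Real.log n / (2 * n)) := by
      rw [div_le_iff₀ hu0]
      calc (1 : ℝ) = Real.exp (Real.log n / (2 * n)) * Real.exp (-(Real.log n / (2 * n))) := by
            rw [← Real.exp_add, add_neg_cancel, Real.exp_zero]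
        _ ≤ _ := mul_le_mul_of_nonneg_left hu (Real.exp_pos _).le
    have e2 : 1 / μ ≤ 2 * r.factorial * Real.exp (-(Real.log n / 2)) := by
      rw [div_le_iff₀ hμ0]
      have h5 := mul_le_mul_of_nonneg_left hμ1
        (show (0 : ℝ) ≤ 2 * r.factorial * Real.exp (-(Real.log n / 2)) by positivity)
      refine le_trans (le_of_eq ?_) h5
      have h6 : Real.exp (-(Real.log n / 2)) * Real.exp (-(Real.log n / 2)) = (n : ℝ)⁻¹ := by
        rw [← Real.exp_add, show -(Real.log n / 2) + -(Real.log n / 2) = -Real.log n by ring,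
          Real.exp_neg, Real.exp_log hn0]
      calc (1 : ℝ) = n * (n : ℝ)⁻¹ := (mul_inv_cancel₀ hn0.ne').symm
        _ = n * (Real.exp (-(Real.log n / 2)) * Real.exp (-(Real.log n / 2))) := by rw [h6]
        _ = _ := by field_simp
    have e3 : 1 / (u * μ) ≤ 2 * r.factorial *
        Real.exp (Real.log n / (2 * n) - Real.log n / 2) := by
      rw [one_div, mul_inv, ← one_div, ← one_div]
      calc 1 / u * (1 / μ) ≤ Real.exp (Real.log n / (2 * n)) *
            (2 * r.factorial * Real.exp (-(Real.log n / 2))) :=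
          mul_le_mul e1 e2 (by positivity) (Real.exp_pos _).le
        _ = 2 * r.factorial * Real.exp (Real.log n / (2 * n) - Real.log n / 2) := by
          rw [sub_eq_add_neg, Real.exp_add]
          ring
    linarith

end Pool.Agent.MP4a7415
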