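import Pool.Agent.Lib.MP_4a7415_co.One
import Pool.Agent.Lib.MP_4a7415_co.Zero

/-! # The threshold for fractional Steiner systems in random hypergraphs -/

namespace Pool.Agent.Lib.MP_4a7415_co.FracThr

open Finset Filter Topology

/-- The probability that the random `q`-uniform hypergraph on `Fin n`, in which each `q`-subset
is an edge independently with probability `p`, has the property `A`. -/
noncomputable def Prob (n q : ℕ) (p : ℝ) (A : Set (Finset (Finset (Fin n)))) : ℝ :=
  ∑ G ∈ (powersetCard q (univ : Finset (Fin n))).powerset,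
    A.indicator (fun G => p ^ G.card * (1 - p) ^ (n.choose q - G.card)) G

theorem prob_eq (n q : ℕ) (p : ℝ) (A : Set (Finset (Finset (Fin n)))) :
    Prob n q p A = MP4a7415.PrE (MP4a7415.Blk n q) p A := by
  have hc : (MP4a7415.Blk n q).card = n.choose q := by
    rw [card_powersetCard, card_univ, Fintype.card_fin]
  rw [Prob, MP4a7415.PrE, hc]
  rfl

/-- Let `1 ≤ r < q`. Above a constant times `n ^ (-(q - r)) * log n` the random `q`-uniform
hypergraph is asymptotically almost surely the block set of a `lam`-fold design, with almost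
equal multiplicities; below a quarter of that function it almost surely carries not even real
weights summing to one over the edges through each `r`-set. -/
theorem result (q r : ℕ) (hr : 1 ≤ r) (hqr : r < q) :
    (∀ ε : ℝ, 0 < ε → ∃ C : ℝ, 0 < C ∧
      ∀ N : ℕ → ℕ, Tendsto N atTop atTop → ∀ p : ℕ → ℝ, (∀ i, 0 ≤ p i ∧ p i ≤ 1) →
      (∀ᶠ i in atTop, C * (Real.log (N i) / (N i : ℝ) ^ (q - r)) ≤ p i) →
      Tendsto (fun i => Prob (N i) q (p i)
        {G | ∃ lam : ℕ, 0 < lam ∧ ∃ W : Finset (Fin (N i)) → ℕ,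
          (∀ R : Finset (Fin (N i)), R.card = r → ∑ e ∈ G with R ⊆ e, W e = lam) ∧
          ∀ e ∈ G, |(W e : ℝ) * (p i * (N i - r).choose (q - r)) - lam| ≤ ε * lam})
        atTop (𝓝 1)) ∧
    (∀ N : ℕ → ℕ, Tendsto N atTop atTop → ∀ p : ℕ → ℝ, (∀ i, 0 ≤ p i ∧ p i ≤ 1) →
      (∀ᶠ i in atTop, p i ≤ 1 / 4 * (Real.log (N i) / (N i : ℝ) ^ (q - r))) →
      Tendsto (fun i => Prob (N i) q (p i)
        {G | ∃ w : Finset (Fin (N i)) → ℝ,
          ∀ R : Finset (Fin (N i)), R.card = r → ∑ e ∈ G with R ⊆ e, w e = 1})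
        atTop (𝓝 0)) := by
  constructor
  · intro ε hε
    obtain ⟨C, hC, hb⟩ := MP4a7415.one_bound hr hqr hε
    refine ⟨C, hC, fun N hN p hp hlow => ?_⟩
    have h3 : Tendsto (fun i => 1 - 3 / ((N i : ℕ) : ℝ)) atTop (𝓝 1) := by
      have h4 : Tendsto (fun i => ((N i : ℕ) : ℝ)) atTop atTop :=
        tendsto_natCast_atTop_atTop.comp hN
      have := (h4.const_div_atTop 3).const_sub 1
      rwa [sub_zero] at this
    refine tendsto_of_tendsto_of_tendsto_of_le_of_le' h3 tendsto_const_nhds ?_ ?_
    · filter_upwards [hN.eventually hb, hlow] with i h5 h6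
      rw [prob_eq]
      exact h5 (p i) (hp i).2 h6
    · exact Eventually.of_forall fun i => by
        rw [prob_eq]
        exact MP4a7415.PrE_le_one (hp i).1 (hp i).2 _
  · intro N hN p hp hup
    obtain ⟨b, hb0, hb⟩ := MP4a7415.zero_bound hr hqr
    refine tendsto_of_tendsto_of_tendsto_of_le_of_le' tendsto_const_nhds (hb0.comp hN) ?_ ?_
    · exact Eventually.of_forall fun i => by
        rw [prob_eq]
        exact MP4a7415.PrE_nonneg (hp i).1 (hp i).2 _
    · filter_upwards [hN.eventually hb, hup] with i h5 h6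
      rw [prob_eq]
      refine (MP4a7415.PrE_mono (hp i).1 (hp i).2 ?_).trans (h5 (p i) (hp i).1 (hp i).2 h6)
      rintro G _ ⟨w, hw⟩ R hR
      by_contra hc
      push Not at hc
      have h7 := hw R (mem_powersetCard.1 hR).2
      rw [filter_false_of_mem (fun e he => hc e he), sum_empty] at h7
      exact zero_ne_one h7

end Pool.Agent.Lib.MP_4a7415_co.FracThr
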