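import Mathlib

/-! # The local identity: `y R` from the block sums inside `R ∪ W` -/

namespace Pool.Agent.MP4a7415

open Finset

variable {α : Type*} [DecidableEq α]

/-- The sum of `y` over the `r`-subsets of `S`. -/
def ev (r : ℕ) (y : Finset α → ℝ) (S : Finset α) : ℝ := ∑ T ∈ powersetCard r S, y T

theorem mobius (g : Finset α → ℝ) (R : Finset α) : ∀ W : Finset α, Disjoint R W →
    ∑ J ∈ R.powerset, (-1 : ℝ) ^ (R.card - J.card) * ∑ T ∈ (W ∪ J).powerset, g T =
      ∑ T ∈ (W ∪ R).powerset, if R ⊆ T then g T else 0 := by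
  induction R using Finset.induction_on with
  | empty =>
    intro W _
    simp
  | insert a R ha ih =>
    intro W hd
    have hd1 : a ∉ W := by
      intro h
      exact (disjoint_left.1 hd) (mem_insert_self a R) h
    have hd2 : Disjoint R W := disjoint_of_subset_left (subset_insert a R) hd
    have hd3 : Disjoint R (insert a W) := by
      rw [disjoint_insert_right]
      exact ⟨ha, hd2⟩
    have h1 := ih W hd2
    have h2 := ih (insert a W) hd3
    rw [sum_powerset_insert ha]
    have e1 : ∑ J ∈ R.powerset, (-1 : ℝ) ^ ((insert a R).card - J.card) *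
        ∑ T ∈ (W ∪ J).powerset, g T =
        - ∑ J ∈ R.powerset, (-1 : ℝ) ^ (R.card - J.card) * ∑ T ∈ (W ∪ J).powerset, g T := by
      rw [← sum_neg_distrib]
      refine sum_congr rfl fun J hJ => ?_
      have hc : J.card ≤ R.card := card_le_card (mem_powerset.1 hJ)
      rw [card_insert_of_notMem ha, Nat.succ_sub hc, pow_succ]
      ring
    have e2 : ∑ J ∈ R.powerset, (-1 : ℝ) ^ ((insert a R).card - (insert a J).card) *
        ∑ T ∈ (W ∪ insert a J).powerset, g T =
        ∑ J ∈ R.powerset, (-1 : ℝ) ^ (R.card - J.card) *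
          ∑ T ∈ (insert a W ∪ J).powerset, g T := by
      refine sum_congr rfl fun J hJ => ?_
      have haJ : a ∉ J := fun h => ha (mem_powerset.1 hJ h)
      rw [card_insert_of_notMem ha, card_insert_of_notMem haJ, Nat.add_sub_add_right,
        union_insert, insert_union]
    rw [e1, e2, h1, h2, union_insert, insert_union]
    have haU : a ∉ W ∪ R := by
      rw [mem_union]
      rintro (h | h)
      · exact hd1 h
      · exact ha h
    rw [sum_powerset_insert haU, sum_powerset_insert haU]
    have e3 : ∑ T ∈ (W ∪ R).powerset, (if insert a R ⊆ T then g T else 0) = 0 := by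
      refine sum_eq_zero fun T hT => ?_
      rw [if_neg]
      intro h
      exact haU (mem_powerset.1 hT (h (mem_insert_self a R)))
    have e4 : ∑ T ∈ (W ∪ R).powerset, (if R ⊆ insert a T then g (insert a T) else 0) =
        ∑ T ∈ (W ∪ R).powerset, (if insert a R ⊆ insert a T then g (insert a T) else 0) := by
      refine sum_congr rfl fun T _ => ?_
      have : R ⊆ insert a T ↔ insert a R ⊆ insert a T := by
        constructor
        · intro h
          exact insert_subset (mem_insert_self a T) h
        · intro h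
          exact (subset_insert a R).trans h
      simp only [this]
    rw [e3, e4]
    ring

omit [DecidableEq α] in
theorem ev_eq (r : ℕ) (y : Finset α → ℝ) (S : Finset α) :
    ev r y S = ∑ T ∈ S.powerset, if T.card = r then y T else 0 := by
  rw [ev, powersetCard_eq_filter, sum_filter]

theorem abs_le_of_ev (r : ℕ) (y : Finset α → ℝ) {R W : Finset α} (hd : Disjoint R W)
    (hR : R.card = r) {β : ℝ} (hβ : ∀ J, J ⊆ R → |ev r y (W ∪ J)| ≤ β) :
    |y R| ≤ 2 ^ r * β := by
  have h := mobius (fun T => if T.card = r then y T else 0) R W hd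
  have h1 : ∑ T ∈ (W ∪ R).powerset, (if R ⊆ T then (if T.card = r then y T else 0) else 0) =
      y R := by
    rw [sum_eq_single R]
    · rw [if_pos subset_rfl, if_pos hR]
    · intro T _ hT
      by_cases h1 : R ⊆ T
      · rw [if_pos h1]
        by_cases h2 : T.card = r
        · exact absurd (eq_of_subset_of_card_le h1 (by omega)).symm hT
        · rw [if_neg h2]
      · rw [if_neg h1]
    · intro h1
      exact absurd (mem_powerset.2 subset_union_right) h1
  rw [h1] at h
  rw [← h]
  refine (abs_sum_le_sum_abs _ _).trans ?_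
  have h2 : ∀ J ∈ R.powerset, |(-1 : ℝ) ^ (R.card - J.card) *
      ∑ T ∈ (W ∪ J).powerset, (if T.card = r then y T else 0)| ≤ β := by
    intro J hJ
    rw [abs_mul, abs_pow, abs_neg, abs_one, one_pow, one_mul, ← ev_eq]
    exact hβ J (mem_powerset.1 hJ)
  refine (sum_le_sum h2).trans ?_
  rw [sum_const, card_powerset, hR, nsmul_eq_mul]
  push_cast
  exact le_rfl

theorem card_sup {S T : Finset α} {q : ℕ} (hT : T ⊆ S) (hq : T.card ≤ q) :
    ((powersetCard q S).filter (fun e => T ⊆ e)).card = (S.card - T.card).choose (q - T.card) := by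
  rw [← card_sdiff_of_subset hT, ← card_powersetCard]
  refine card_nbij' (fun e => e \ T) (fun e => T ∪ e) ?_ ?_ ?_ ?_
  · intro e he
    simp only [coe_filter, mem_powersetCard, Set.mem_ofPred_eq] at he
    simp only [mem_coe, mem_powersetCard]
    refine ⟨sdiff_subset_sdiff he.1.1 subset_rfl, ?_⟩
    rw [card_sdiff_of_subset he.2, he.1.2]
  · intro e he
    simp only [mem_coe, mem_powersetCard] at he
    simp only [coe_filter, mem_powersetCard, Set.mem_ofPred_eq]
    refine ⟨⟨union_subset hT (he.1.trans sdiff_subset), ?_⟩, subset_union_left⟩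
    rw [card_union_of_disjoint (disjoint_of_subset_right he.1 disjoint_sdiff), he.2]
    omega
  · intro e he
    simp only [coe_filter, mem_powersetCard, Set.mem_ofPred_eq] at he
    simp only
    rw [union_sdiff_of_subset he.2]
  · intro e he
    simp only [mem_coe, mem_powersetCard] at he
    simp only
    rw [union_sdiff_cancel_left (disjoint_of_subset_right he.1 disjoint_sdiff)]

theorem sum_ev {q r : ℕ} (hqr : r ≤ q) (y : Finset α → ℝ) (S : Finset α) :
    ∑ e ∈ powersetCard q S, ev r y e = ((S.card - r).choose (q - r) : ℝ) * ev r y S := by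
  unfold ev
  rw [sum_comm' (t' := powersetCard r S)
    (s' := fun T => (powersetCard q S).filter (fun e => T ⊆ e))]
  · rw [mul_sum]
    refine sum_congr rfl fun T hT => ?_
    rw [mem_powersetCard] at hT
    rw [sum_const, card_sup hT.1 (by omega), hT.2, nsmul_eq_mul]
  · intro e T
    simp only [mem_powersetCard, mem_filter]
    constructor
    · rintro ⟨h1, h2⟩
      exact ⟨⟨h1, h2.1⟩, h2.1.trans h1.1, h2.2⟩
    · rintro ⟨⟨h1, h2⟩, h3⟩
      exact ⟨h1, h2, h3.2⟩

/-- If the value at `R` is at least `t`, then some block inside `R ∪ W` has large sum. -/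
theorem exists_block {q r : ℕ} (hqr : r ≤ q) (y : Finset α → ℝ) {R W : Finset α}
    (hd : Disjoint R W) (hR : R.card = r) (hW : W.card = q) {t : ℝ}
    (hy : t ≤ |y R|) :
    ∃ e, e ⊆ R ∪ W ∧ e.card = q ∧ t ≤ 2 ^ (q + 2 * r) * |ev r y e| := by
  by_contra hc
  push Not at hc
  -- the largest block value
  obtain ⟨e0, he0, hmax⟩ := exists_max_image (powersetCard q (R ∪ W)) (fun e => |ev r y e|)
    ⟨W, mem_powersetCard.2 ⟨subset_union_right, hW⟩⟩
  rw [mem_powersetCard] at he0
  have hlt := hc e0 he0.1 he0.2
  have key : |y R| ≤ 2 ^ r * (2 ^ (q + r) * |ev r y e0|) := by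
    refine abs_le_of_ev r y hd hR fun J hJ => ?_
    have hdJ : Disjoint W J := (disjoint_of_subset_left hJ hd).symm
    have hcJ : J.card ≤ r := hR ▸ card_le_card hJ
    have hc1 : (W ∪ J).card = q + J.card := by rw [card_union_of_disjoint hdJ, hW]
    have h1 := sum_ev hqr y (W ∪ J)
    have hch : (1 : ℝ) ≤ (((W ∪ J).card - r).choose (q - r) : ℝ) := by
      have : 0 < ((W ∪ J).card - r).choose (q - r) := Nat.choose_pos (by omega)
      exact_mod_cast this
    have h2 : |ev r y (W ∪ J)| ≤ |∑ e ∈ powersetCard q (W ∪ J), ev r y e| := by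
      rw [h1, abs_mul]
      exact le_mul_of_one_le_left (abs_nonneg _) (hch.trans (le_abs_self _))
    refine h2.trans ((abs_sum_le_sum_abs _ _).trans ?_)
    have h3 : ∀ e ∈ powersetCard q (W ∪ J), |ev r y e| ≤ |ev r y e0| := by
      intro e he
      rw [mem_powersetCard] at he
      refine hmax e (mem_powersetCard.2 ⟨he.1.trans ?_, he.2⟩)
      exact union_subset subset_union_right (hJ.trans subset_union_left)
    refine (sum_le_sum h3).trans ?_
    rw [sum_const, nsmul_eq_mul, card_powersetCard]
    refine mul_le_mul_of_nonneg_right ?_ (abs_nonneg _)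
    have h4 : (W ∪ J).card.choose q ≤ 2 ^ (q + r) := by
      refine (Nat.choose_le_two_pow _ _).trans ?_
      exact Nat.pow_le_pow_right (by norm_num) (by omega)
    exact_mod_cast h4
  have e : (2 : ℝ) ^ r * (2 ^ (q + r) * |ev r y e0|) = 2 ^ (q + 2 * r) * |ev r y e0| := by
    rw [← mul_assoc, ← pow_add]
    congr 2
    ring
  rw [e] at key
  linarith

end Pool.Agent.MP4a7415
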