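import Mathlib

/-! # The product measure on the subsets of a finite set -/

namespace Pool.Agent.MP4a7415

open Finset

variable {β : Type*}

/-- Weight of `G` when each of `N` elements is chosen independently with probability `p`. -/
noncomputable def wt (N : ℕ) (p : ℝ) (G : Finset β) : ℝ := p ^ G.card * (1 - p) ^ (N - G.card)

/-- Probability that the random subset of `E` (each element chosen independently with
probability `p`) lies in `A`. -/
noncomputable def PrE (E : Finset β) (p : ℝ) (A : Set (Finset β)) : ℝ :=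
  ∑ G ∈ E.powerset, A.indicator (wt E.card p) G

theorem wt_nonneg {N : ℕ} {p : ℝ} (h0 : 0 ≤ p) (h1 : p ≤ 1) (G : Finset β) : 0 ≤ wt N p G :=
  mul_nonneg (pow_nonneg h0 _) (pow_nonneg (by linarith) _)

theorem sum_wt (E : Finset β) (p : ℝ) : ∑ G ∈ E.powerset, wt E.card p G = 1 := by
  unfold wt
  rw [Finset.sum_pow_mul_eq_add_pow]
  simp

theorem PrE_mono {E : Finset β} {p : ℝ} (h0 : 0 ≤ p) (h1 : p ≤ 1) {A B : Set (Finset β)}
    (h : ∀ G, G ⊆ E → G ∈ A → G ∈ B) : PrE E p A ≤ PrE E p B := by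
  classical
  refine sum_le_sum fun G hG => ?_
  by_cases hA : G ∈ A
  · rw [Set.indicator_of_mem hA, Set.indicator_of_mem (h G (mem_powerset.1 hG) hA)]
  · rw [Set.indicator_of_notMem hA]
    exact Set.indicator_nonneg (fun x _ => wt_nonneg h0 h1 x) _

theorem PrE_nonneg {E : Finset β} {p : ℝ} (h0 : 0 ≤ p) (h1 : p ≤ 1) (A : Set (Finset β)) :
    0 ≤ PrE E p A :=
  sum_nonneg fun _ _ => Set.indicator_nonneg (fun x _ => wt_nonneg h0 h1 x) _

theorem PrE_compl (E : Finset β) (p : ℝ) (A : Set (Finset β)) :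
    PrE E p A + PrE E p Aᶜ = 1 := by
  rw [← sum_wt E p, PrE, PrE, ← sum_add_distrib]
  refine sum_congr rfl fun G _ => ?_
  by_cases hA : G ∈ A
  · rw [Set.indicator_of_mem hA, Set.indicator_of_notMem (by simpa using hA), add_zero]
  · rw [Set.indicator_of_notMem hA, Set.indicator_of_mem (by simpa using hA), zero_add]

theorem PrE_le_one {E : Finset β} {p : ℝ} (h0 : 0 ≤ p) (h1 : p ≤ 1) (A : Set (Finset β)) :
    PrE E p A ≤ 1 := by
  have := PrE_compl E p A
  have := PrE_nonneg (E := E) h0 h1 Aᶜ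
  linarith

theorem PrE_union {E : Finset β} {p : ℝ} (h0 : 0 ≤ p) (h1 : p ≤ 1) (A B : Set (Finset β)) :
    PrE E p (A ∪ B) ≤ PrE E p A + PrE E p B := by
  rw [PrE, PrE, PrE, ← sum_add_distrib]
  refine sum_le_sum fun G _ => ?_
  have hw := wt_nonneg (N := E.card) h0 h1 G
  by_cases hA : G ∈ A
  · have hB : 0 ≤ B.indicator (wt E.card p) G :=
      Set.indicator_nonneg (fun x _ => wt_nonneg h0 h1 x) _
    rw [Set.indicator_of_mem (Set.mem_union_left B hA), Set.indicator_of_mem hA]
    linarith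
  · by_cases hB : G ∈ B
    · rw [Set.indicator_of_mem (Set.mem_union_right A hB), Set.indicator_of_notMem hA,
        Set.indicator_of_mem hB]
      linarith
    · rw [Set.indicator_of_notMem hA, Set.indicator_of_notMem hB,
        Set.indicator_of_notMem (by simp [hA, hB])]
      linarith

theorem PrE_exists {ι : Type*} {E : Finset β} {p : ℝ} (h0 : 0 ≤ p) (h1 : p ≤ 1) (I : Finset ι)
    (A : ι → Set (Finset β)) :
    PrE E p {G | ∃ i ∈ I, G ∈ A i} ≤ ∑ i ∈ I, PrE E p (A i) := by
  classical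
  unfold PrE
  rw [sum_comm]
  refine sum_le_sum fun G _ => ?_
  by_cases h : ∃ i ∈ I, G ∈ A i
  · obtain ⟨i, hi, hG⟩ := h
    rw [Set.indicator_of_mem (show G ∈ {G | ∃ i ∈ I, G ∈ A i} from ⟨i, hi, hG⟩)]
    calc wt E.card p G = (A i).indicator (wt E.card p) G := (Set.indicator_of_mem hG _).symm
      _ ≤ ∑ i ∈ I, (A i).indicator (wt E.card p) G :=
        single_le_sum (f := fun i => (A i).indicator (wt E.card p) G)
          (fun j _ => Set.indicator_nonneg (fun x _ => wt_nonneg h0 h1 x) _) hi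
  · rw [Set.indicator_of_notMem (by simpa using h)]
    exact sum_nonneg fun j _ => Set.indicator_nonneg (fun x _ => wt_nonneg h0 h1 x) _

theorem mgf [DecidableEq β] {E F : Finset β} (hF : F ⊆ E) (p x : ℝ) :
    ∑ G ∈ E.powerset, wt E.card p G * x ^ (G ∩ F).card = (1 - p + p * x) ^ F.card := by
  have h := prod_add (fun e => if e ∈ F then p * x else p) (fun _ => 1 - p) E
  have h1 : ∏ e ∈ E, ((if e ∈ F then p * x else p) + (1 - p)) = (1 - p + p * x) ^ F.card := by
    have : ∀ e ∈ E, ((if e ∈ F then p * x else p) + (1 - p)) =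
        if e ∈ F then 1 - p + p * x else 1 := by
      intro e _
      split_ifs <;> ring
    rw [prod_congr rfl this, prod_ite, prod_const, prod_const_one, mul_one,
      filter_mem_eq_inter, inter_eq_right.2 hF]
  rw [h1] at h
  rw [h]
  refine sum_congr rfl fun G hG => ?_
  have h2 : ∏ e ∈ G, (if e ∈ F then p * x else p) = p ^ G.card * x ^ (G ∩ F).card := by
    have : ∀ e ∈ G, (if e ∈ F then p * x else p) = p * if e ∈ F then x else 1 := by
      intro e _
      split_ifs <;> ring
    rw [prod_congr rfl this, prod_mul_distrib, prod_const, prod_ite, prod_const,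
      prod_const_one, mul_one, filter_mem_eq_inter]
  rw [h2, prod_const, card_sdiff_of_subset (mem_powerset.1 hG), wt]
  ring

theorem PrE_avoid [DecidableEq β] {E F : Finset β} (hF : F ⊆ E) (p : ℝ) :
    PrE E p {G | Disjoint G F} = (1 - p) ^ F.card := by
  have h := mgf hF p 0
  rw [mul_zero, add_zero] at h
  rw [← h, PrE]
  refine sum_congr rfl fun G _ => ?_
  by_cases hd : Disjoint G F
  · rw [Set.indicator_of_mem (show G ∈ {G | Disjoint G F} from hd),
      disjoint_iff_inter_eq_empty.1 hd, card_empty, pow_zero, mul_one]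
  · rw [Set.indicator_of_notMem (by simpa using hd), zero_pow, mul_zero]
    rw [card_ne_zero]
    rwa [disjoint_iff_inter_eq_empty, ← not_nonempty_iff_eq_empty, not_not] at hd

/-- Exponential Markov inequality. -/
theorem markov [DecidableEq β] {E F : Finset β} (hF : F ⊆ E) {p : ℝ} (h0 : 0 ≤ p) (h1 : p ≤ 1)
    (s a : ℝ) (A : Set (Finset β)) (hA : ∀ G, G ⊆ E → G ∈ A → a ≤ s * (G ∩ F).card)
    (hs : |s| ≤ 1) :
    PrE E p A ≤ Real.exp (p * F.card * (s + s ^ 2) - a) := by
  have key : PrE E p A ≤ Real.exp (-a) * (1 - p + p * Real.exp s) ^ F.card := by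
    rw [← mgf hF, mul_sum, PrE]
    refine sum_le_sum fun G hG => ?_
    have hw := wt_nonneg (N := E.card) h0 h1 G
    by_cases h : G ∈ A
    · rw [Set.indicator_of_mem h]
      have := hA G (mem_powerset.1 hG) h
      have h2 : 1 ≤ Real.exp (-a) * Real.exp s ^ (G ∩ F).card := by
        rw [← Real.exp_nat_mul, ← Real.exp_add]
        refine Real.one_le_exp ?_
        linarith
      calc wt E.card p G = wt E.card p G * 1 := (mul_one _).symm
        _ ≤ wt E.card p G * (Real.exp (-a) * Real.exp s ^ (G ∩ F).card) :=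
          mul_le_mul_of_nonneg_left h2 hw
        _ = _ := by ring
    · rw [Set.indicator_of_notMem h]
      positivity
  refine key.trans ?_
  have h2 : Real.exp s ≤ 1 + s + s ^ 2 := by
    have := Real.abs_exp_sub_one_sub_id_le hs
    have := (abs_le.1 this).2
    linarith
  have h3 : 1 - p + p * Real.exp s ≤ Real.exp (p * (s + s ^ 2)) := by
    have h4 : 1 - p + p * Real.exp s ≤ p * (s + s ^ 2) + 1 := by
      have := mul_le_mul_of_nonneg_left h2 h0
      linarith
    exact h4.trans (Real.add_one_le_exp _)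
  have h5 : 0 ≤ 1 - p + p * Real.exp s := by
    have := mul_nonneg h0 (Real.exp_pos s).le
    linarith
  calc Real.exp (-a) * (1 - p + p * Real.exp s) ^ F.card
      ≤ Real.exp (-a) * Real.exp (p * (s + s ^ 2)) ^ F.card :=
        mul_le_mul_of_nonneg_left (pow_le_pow_left₀ h5 h3 _) (Real.exp_pos _).le
    _ = Real.exp (p * F.card * (s + s ^ 2) - a) := by
        rw [← Real.exp_nat_mul, ← Real.exp_add]
        congr 1
        ring

theorem lower_tail [DecidableEq β] {E F : Finset β} (hF : F ⊆ E) {p : ℝ} (h0 : 0 ≤ p)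
    (h1 : p ≤ 1) {δ : ℝ} (hδ0 : 0 ≤ δ) (hδ : δ ≤ 2) :
    PrE E p {G | ((G ∩ F).card : ℝ) ≤ (1 - δ) * (p * F.card)} ≤
      Real.exp (-(δ ^ 2 / 4 * (p * F.card))) := by
  refine (markov hF h0 h1 (-(δ / 2)) (-(δ / 2) * ((1 - δ) * (p * F.card))) _ ?_ ?_).trans
    (le_of_eq ?_)
  · intro G _ hG
    have : ((G ∩ F).card : ℝ) ≤ (1 - δ) * (p * F.card) := hG
    nlinarith
  · rw [abs_neg, abs_of_nonneg (by linarith)]
    linarith
  · congr 1
    ring

theorem upper_tail [DecidableEq β] {E F : Finset β} (hF : F ⊆ E) {p : ℝ} (h0 : 0 ≤ p)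
    (h1 : p ≤ 1) {δ : ℝ} (hδ0 : 0 ≤ δ) (hδ : δ ≤ 2) :
    PrE E p {G | (1 + δ) * (p * F.card) ≤ ((G ∩ F).card : ℝ)} ≤
      Real.exp (-(δ ^ 2 / 4 * (p * F.card))) := by
  refine (markov hF h0 h1 (δ / 2) (δ / 2 * ((1 + δ) * (p * F.card))) _ ?_ ?_).trans
    (le_of_eq ?_)
  · intro G _ hG
    have : (1 + δ) * (p * F.card) ≤ ((G ∩ F).card : ℝ) := hG
    nlinarith
  · rw [abs_of_nonneg (by linarith)]
    linarith
  · congr 1
    ring

end Pool.Agent.MP4a7415
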