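import Mathlib

/-! # The number of sets cut out by half spaces -/

namespace Pool.Agent.MP4a7415

open Finset

/-- The subsets of `E` cut out by the half spaces `⟨a e, z⟩ ≥ 1` of the space of functions on
`S`. -/
noncomputable def halfs {β γ : Type*} [DecidableEq β] (E : Finset β) (S : Finset γ)
    (a : β → γ → ℝ) : Finset (Finset β) := by
  classical
  exact E.powerset.filter fun H => ∃ z : γ → ℝ, ∀ e ∈ E, (e ∈ H ↔ 1 ≤ ∑ R ∈ S, a e R * z R)

theorem small_subsets {β : Type*} [DecidableEq β] (E : Finset β) (s : ℕ) :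
    (E.powerset.filter fun F => F.card ≤ s).card ≤ (E.card + 1) ^ s := by
  have h : (E.powerset.filter fun F => F.card ≤ s) ⊆
      (range (s + 1)).biUnion fun k => powersetCard k E := by
    intro F hF
    rw [mem_filter, mem_powerset] at hF
    exact mem_biUnion.2 ⟨F.card, mem_range.2 (by omega), mem_powersetCard.2 ⟨hF.1, rfl⟩⟩
  refine (card_le_card h).trans (card_biUnion_le.trans ?_)
  rw [add_pow]
  refine sum_le_sum fun k hk => ?_
  rw [card_powersetCard, one_pow, mul_one]
  have h1 : 0 < s.choose k := Nat.choose_pos (by rw [mem_range] at hk; omega)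
  calc E.card.choose k ≤ E.card ^ k := Nat.choose_le_pow _ _
    _ = E.card ^ k * 1 := (mul_one _).symm
    _ ≤ E.card ^ k * s.choose k := Nat.mul_le_mul_left _ h1

theorem shatter_card {β γ : Type*} [DecidableEq β] (E : Finset β) (S : Finset γ)
    (a : β → γ → ℝ) {F : Finset β} (hF : (halfs E S a).Shatters F) : F.card ≤ S.card := by
  classical
  by_contra hc
  push Not at hc
  have hFE : F ⊆ E := by
    obtain ⟨u, hu, he⟩ := hF subset_rfl
    rw [halfs, mem_filter, mem_powerset] at hu
    rw [← he]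
    exact inter_subset_right.trans hu.1
  -- a linear relation
  have hdep : ¬ LinearIndependent ℝ (fun (e : F) (R : S) => a e R) := by
    intro hli
    have := hli.fintype_card_le_finrank
    rw [Module.finrank_fintype_fun_eq_card, Fintype.card_coe, Fintype.card_coe] at this
    omega
  rw [Fintype.not_linearIndependent_iff] at hdep
  obtain ⟨g, hg, i0, hi0⟩ := hdep
  -- with nonnegative sum
  obtain ⟨l, hl, hl0, hls⟩ : ∃ l : F → ℝ, (∑ i, l i • (fun (R : S) => a i R) = 0) ∧
      (∃ i, l i ≠ 0) ∧ 0 ≤ ∑ i, l i := by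
    rcases le_total 0 (∑ i, g i) with h | h
    · exact ⟨g, hg, ⟨i0, hi0⟩, h⟩
    · refine ⟨fun i => - g i, ?_, ⟨i0, neg_ne_zero.2 hi0⟩, ?_⟩
      · simp only [neg_smul, sum_neg_distrib]
        rw [hg, neg_zero]
      · rw [sum_neg_distrib]
        linarith
  -- the shattering set
  obtain ⟨u, hu, he⟩ := hF (filter_subset (fun e => ∃ h : e ∈ F, 0 < l ⟨e, h⟩) F)
  rw [halfs, mem_filter] at hu
  obtain ⟨-, z, hz⟩ := hu
  have hside : ∀ i : F, (0 < l i ↔ 1 ≤ ∑ R ∈ S, a i R * z R) := by
    intro i
    rw [← hz i (hFE i.2)]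
    have h1 : (i : β) ∈ F ∩ u ↔ (i : β) ∈ F.filter fun e => ∃ h : e ∈ F, 0 < l ⟨e, h⟩ := by
      rw [he]
    rw [mem_inter, mem_filter] at h1
    constructor
    · intro h
      exact (h1.2 ⟨i.2, i.2, h⟩).2
    · intro h
      obtain ⟨-, h3, h2⟩ := h1.1 ⟨i.2, h⟩
      exact h2
  have hzero : ∑ i : F, l i * ∑ R ∈ S, a i R * z R = 0 := by
    have e1 : ∀ R ∈ S, ∑ i : F, l i * a i R = 0 := by
      intro R hR
      have := congrFun hl ⟨R, hR⟩
      simpa only [Finset.sum_apply, Pi.smul_apply, smul_eq_mul, Pi.zero_apply] using this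
    calc ∑ i : F, l i * ∑ R ∈ S, a i R * z R
        = ∑ i : F, ∑ R ∈ S, l i * a i R * z R := by
          refine sum_congr rfl fun i _ => ?_
          rw [mul_sum]
          exact sum_congr rfl fun R _ => by ring
      _ = ∑ R ∈ S, (∑ i : F, l i * a i R) * z R := by
          rw [sum_comm]
          exact sum_congr rfl fun R _ => by rw [sum_mul]
      _ = 0 := sum_eq_zero fun R hR => by rw [e1 R hR, zero_mul]
  have hterm : ∀ i : F, l i ≤ l i * ∑ R ∈ S, a i R * z R := by
    intro i
    by_cases h : 0 < l i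
    · exact le_mul_of_one_le_right h.le ((hside i).1 h)
    · have h2 : ∑ R ∈ S, a i R * z R < 1 := by
        by_contra h3
        exact h ((hside i).2 (not_lt.1 h3))
      have h3 : l i ≤ 0 := not_lt.1 h
      nlinarith
  have hneg : ∀ i : F, 0 ≤ l i := by
    intro i
    by_contra h
    push Not at h
    have h2 : ∑ R ∈ S, a i R * z R < 1 := by
      by_contra h3
      have := (hside i).2 (not_lt.1 h3)
      linarith
    have h3 : l i < l i * ∑ R ∈ S, a i R * z R := by nlinarith
    have h4 : ∑ i : F, l i < ∑ i : F, l i * ∑ R ∈ S, a i R * z R :=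
      sum_lt_sum (fun i _ => hterm i) ⟨i, mem_univ _, h3⟩
    linarith
  have hs : ∑ i : F, l i = 0 := by
    refine le_antisymm ?_ hls
    rw [← hzero]
    exact sum_le_sum fun i _ => hterm i
  obtain ⟨i, hi⟩ := hl0
  exact hi ((sum_eq_zero_iff_of_nonneg fun i _ => hneg i).1 hs i (mem_univ _))

theorem halfs_card {β γ : Type*} [DecidableEq β] (E : Finset β) (S : Finset γ)
    (a : β → γ → ℝ) : (halfs E S a).card ≤ (E.card + 1) ^ S.card := by
  classical
  refine (card_le_card_shatterer _).trans (le_trans (card_le_card ?_) (small_subsets E S.card))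
  intro F hF
  rw [mem_shatterer] at hF
  rw [mem_filter, mem_powerset]
  refine ⟨?_, shatter_card E S a hF⟩
  obtain ⟨u, hu, he⟩ := hF subset_rfl
  rw [halfs, mem_filter, mem_powerset] at hu
  rw [← he]
  exact inter_subset_right.trans hu.1

end Pool.Agent.MP4a7415
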