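import Pool.Agent.Lib.MP_4a7415_co.Count
import Pool.Agent.Lib.MP_4a7415_co.VC
import Pool.Agent.Lib.MP_4a7415_co.Prob

/-! # The two good events and their probabilities -/

namespace Pool.Agent.MP4a7415

open Finset

/-- All `q`-subsets of `Fin n`. -/
abbrev Blk (n q : ℕ) : Finset (Finset (Fin n)) := powersetCard q univ

/-- The constant `c0`. -/
def c0 (q r : ℕ) : ℕ := q.choose r * (q + r).choose r

theorem c0_pos {q r : ℕ} (hqr : r ≤ q) : 0 < c0 q r :=
  Nat.mul_pos (Nat.choose_pos hqr) (Nat.choose_pos (by omega))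

/-- Every sparse vector with many heavy blocks has many heavy blocks in `G`. -/
def Good1 (n q r K : ℕ) (p : ℝ) (G : Finset (Finset (Fin n))) : Prop :=
  ∀ m ∈ Icc 1 (n.choose r), ∀ S ⊆ Blk n r, S.card ≤ K * m → ∀ z : Finset (Fin n) → ℝ,
    (∀ R, R ∉ S → z R = 0) → m * (n - r).choose (q - r) ≤ (heavy n q r z).card * c0 q r →
    p * (m * (n - r).choose (q - r)) / (2 * c0 q r) < (G ∩ heavy n q r z).card

/-- All degrees are close to their mean. -/
def Good2 (n q r : ℕ) (p δ : ℝ) (G : Finset (Finset (Fin n))) : Prop :=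
  ∀ R ∈ Blk n r, |((G ∩ (Blk n q).filter (fun e => R ⊆ e)).card : ℝ) -
    p * (n - r).choose (q - r)| ≤ δ * (p * (n - r).choose (q - r))

theorem PrE_exists_le {ι β : Type*} {E : Finset β} {p : ℝ} (h0 : 0 ≤ p) (h1 : p ≤ 1)
    (I : Finset ι) (A : ι → Set (Finset β)) {b : ℝ} (hb : ∀ i ∈ I, PrE E p (A i) ≤ b) :
    PrE E p {G | ∃ i ∈ I, G ∈ A i} ≤ I.card * b := by
  refine (PrE_exists h0 h1 I A).trans ((sum_le_sum hb).trans ?_)
  rw [sum_const, nsmul_eq_mul]

theorem good2_prob {n q r : ℕ} (hqr : r ≤ q) {p δ : ℝ} (h0 : 0 ≤ p) (h1 : p ≤ 1)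
    (hδ0 : 0 ≤ δ) (hδ : δ ≤ 2) :
    PrE (Blk n q) p {G | ¬ Good2 n q r p δ G} ≤
      n.choose r * (2 * Real.exp (-(δ ^ 2 / 4 * (p * (n - r).choose (q - r))))) := by
  classical
  have hc : (Blk n r).card = n.choose r := by
    rw [card_powersetCard, card_univ, Fintype.card_fin]
  rw [← hc]
  refine le_trans (PrE_mono h0 h1 (B := {G | ∃ R ∈ Blk n r, G ∈
    ({G | ((G ∩ (Blk n q).filter (fun e => R ⊆ e)).card : ℝ) ≤
        (1 - δ) * (p * ((Blk n q).filter (fun e => R ⊆ e)).card)} ∪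
      {G | (1 + δ) * (p * ((Blk n q).filter (fun e => R ⊆ e)).card) ≤
        ((G ∩ (Blk n q).filter (fun e => R ⊆ e)).card : ℝ)} : Set (Finset (Finset (Fin n))))}) ?_)
    (PrE_exists_le h0 h1 _ _ ?_)
  · intro G _ hG
    simp only [Set.mem_ofPred_eq, Good2] at hG ⊢
    push Not at hG
    obtain ⟨R, hR, h⟩ := hG
    refine ⟨R, hR, ?_⟩
    have hd : ((Blk n q).filter (fun e => R ⊆ e)).card = (n - r).choose (q - r) := by
      have hR' := (mem_powersetCard.1 hR).2
      rw [card_sup (subset_univ _) (by omega), card_univ, Fintype.card_fin, hR']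
    rw [hd]
    rcases lt_abs.1 h with h2 | h2
    · right
      show (1 + δ) * _ ≤ _
      linarith
    · left
      show _ ≤ (1 - δ) * _
      linarith
  · intro R hR
    have hd : ((Blk n q).filter (fun e => R ⊆ e)).card = (n - r).choose (q - r) := by
      have hR' := (mem_powersetCard.1 hR).2
      rw [card_sup (subset_univ _) (by omega), card_univ, Fintype.card_fin, hR']
    refine (PrE_union h0 h1 _ _).trans ?_
    have e1 := lower_tail (filter_subset (fun e => R ⊆ e) (Blk n q)) h0 h1 hδ0 hδ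
    have e2 := upper_tail (filter_subset (fun e => R ⊆ e) (Blk n q)) h0 h1 hδ0 hδ
    rw [hd] at e1 e2 ⊢
    linarith

theorem ev_supp {n r : ℕ} {S : Finset (Finset (Fin n))} (hS : S ⊆ Blk n r)
    {z : Finset (Fin n) → ℝ} (hz : ∀ R, R ∉ S → z R = 0) (e : Finset (Fin n)) :
    ev r z e = ∑ R ∈ S, (if R ⊆ e then (1 : ℝ) else 0) * z R := by
  classical
  have h1 : ∑ R ∈ S, (if R ⊆ e then (1 : ℝ) else 0) * z R =
      ∑ R ∈ Blk n r, (if R ⊆ e then (1 : ℝ) else 0) * z R := by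
    refine sum_subset hS fun R _ hR => ?_
    rw [hz R hR, mul_zero]
  rw [h1, ev]
  have h2 : powersetCard r e = (Blk n r).filter fun R => R ⊆ e := by
    ext R
    simp only [mem_powersetCard, mem_filter, subset_univ, true_and]
    exact and_comm
  rw [h2, sum_filter]
  refine sum_congr rfl fun R _ => ?_
  split_ifs <;> ring

theorem heavy_mem_union {n q r : ℕ} {S : Finset (Finset (Fin n))} (hS : S ⊆ Blk n r)
    {z : Finset (Fin n) → ℝ} (hz : ∀ R, R ∉ S → z R = 0) :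
    ∃ H ∈ halfs (Blk n q) S (fun e R => if R ⊆ e then (1 : ℝ) else 0),
      ∃ H' ∈ halfs (Blk n q) S (fun e R => if R ⊆ e then (1 : ℝ) else 0),
        heavy n q r z = H ∪ H' := by
  classical
  refine ⟨(Blk n q).filter (fun e => 1 ≤ ev r z e), ?_,
    (Blk n q).filter (fun e => 1 ≤ ev r (fun R => - z R) e), ?_, ?_⟩
  · rw [halfs, mem_filter, mem_powerset]
    refine ⟨filter_subset _ _, z, fun e he => ?_⟩
    rw [mem_filter, ← ev_supp hS hz]
    exact ⟨fun h => h.2, fun h => ⟨he, h⟩⟩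
  · rw [halfs, mem_filter, mem_powerset]
    refine ⟨filter_subset _ _, fun R => - z R, fun e he => ?_⟩
    rw [mem_filter, ← ev_supp hS (z := fun R => - z R) (fun R hR => by rw [hz R hR, neg_zero])]
    exact ⟨fun h => h.2, fun h => ⟨he, h⟩⟩
  · have hneg : ∀ e, ev r (fun R => - z R) e = - ev r z e := by
      intro e
      rw [ev, ev, sum_neg_distrib]
    ext e
    simp only [heavy, mem_filter, mem_union, hneg]
    constructor
    · rintro ⟨h1, h2⟩
      rcases le_abs.1 h2 with h | h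
      · exact Or.inl ⟨h1, h⟩
      · exact Or.inr ⟨h1, h⟩
    · rintro (⟨h1, h⟩ | ⟨h1, h⟩)
      · exact ⟨h1, le_abs.2 (Or.inl h)⟩
      · exact ⟨h1, le_abs.2 (Or.inr h)⟩

/-- The failure probability for a fixed `m` and `S`. -/
theorem fixed_prob {n q r K m : ℕ} (hqr : r ≤ q) {p : ℝ} (h0 : 0 ≤ p) (h1 : p ≤ 1)
    {S : Finset (Finset (Fin n))} (hS : S ⊆ Blk n r) (hc : S.card ≤ K * m) :
    PrE (Blk n q) p {G | ∃ z : Finset (Fin n) → ℝ, (∀ R, R ∉ S → z R = 0) ∧
      m * (n - r).choose (q - r) ≤ (heavy n q r z).card * c0 q r ∧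
      ((G ∩ heavy n q r z).card : ℝ) ≤ p * (m * (n - r).choose (q - r)) / (2 * c0 q r)} ≤
      ((n.choose q + 1 : ℕ) : ℝ) ^ (2 * (K * m)) *
        Real.exp (-(p * (m * (n - r).choose (q - r)) / (16 * c0 q r))) := by
  classical
  have hcq : (Blk n q).card = n.choose q := by
    rw [card_powersetCard, card_univ, Fintype.card_fin]
  have hc0 : (0 : ℝ) < c0 q r := by exact_mod_cast c0_pos hqr
  set X : ℝ := p * (m * (n - r).choose (q - r)) with hX
  set 𝓗 := halfs (Blk n q) S (fun e R => if R ⊆ e then (1 : ℝ) else 0) with h𝓗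
  have hcard : 𝓗.card ≤ (n.choose q + 1) ^ (K * m) := by
    refine (halfs_card _ _ _).trans ?_
    rw [hcq]
    exact Nat.pow_le_pow_right (by omega) hc
  have hsub : ∀ H ∈ 𝓗, H ⊆ Blk n q := by
    intro H hH
    rw [h𝓗, halfs, mem_filter, mem_powerset] at hH
    exact hH.1
  have key : ∀ x ∈ 𝓗 ×ˢ 𝓗, PrE (Blk n q) p {G | m * (n - r).choose (q - r) ≤
      (x.1 ∪ x.2).card * c0 q r ∧ ((G ∩ (x.1 ∪ x.2)).card : ℝ) ≤ X / (2 * c0 q r)} ≤
      Real.exp (-(X / (16 * c0 q r))) := by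
    intro x hx
    rw [mem_product] at hx
    by_cases hm : m * (n - r).choose (q - r) ≤ (x.1 ∪ x.2).card * c0 q r
    · have hm' : X ≤ p * (x.1 ∪ x.2).card * c0 q r := by
        have : ((m * (n - r).choose (q - r) : ℕ) : ℝ) ≤ (((x.1 ∪ x.2).card * c0 q r : ℕ) : ℝ) := by
          exact_mod_cast hm
        push_cast at this
        rw [hX]
        calc p * (m * (n - r).choose (q - r)) ≤ p * ((x.1 ∪ x.2).card * c0 q r) :=
              mul_le_mul_of_nonneg_left this h0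
          _ = _ := by ring
      have hm2 : X / c0 q r ≤ p * (x.1 ∪ x.2).card := by
        rw [div_le_iff₀ hc0]
        exact hm'
      refine (PrE_mono h0 h1 (B := {G | ((G ∩ (x.1 ∪ x.2)).card : ℝ) ≤
        (1 - 1 / 2) * (p * (x.1 ∪ x.2).card)}) ?_).trans
        ((lower_tail (union_subset (hsub _ hx.1) (hsub _ hx.2)) h0 h1 (by norm_num)
          (by norm_num)).trans ?_)
      · rintro G _ ⟨-, h⟩
        change ((G ∩ (x.1 ∪ x.2)).card : ℝ) ≤ (1 - 1 / 2) * (p * (x.1 ∪ x.2).card)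
        refine h.trans ?_
        rw [show X / (2 * (c0 q r : ℝ)) = X / c0 q r / 2 by field_simp]
        linarith
      · rw [Real.exp_le_exp, neg_le_neg_iff]
        rw [show X / (16 * (c0 q r : ℝ)) = X / c0 q r / 16 by field_simp]
        linarith
    · refine le_trans (le_of_eq ?_) (Real.exp_pos _).le
      rw [PrE]
      refine sum_eq_zero fun G _ => ?_
      rw [Set.indicator_of_notMem]
      rintro ⟨h, -⟩
      exact hm h
  have h2 := PrE_exists_le h0 h1 (𝓗 ×ˢ 𝓗) (fun x => {G | m * (n - r).choose (q - r) ≤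
      (x.1 ∪ x.2).card * c0 q r ∧ ((G ∩ (x.1 ∪ x.2)).card : ℝ) ≤ X / (2 * c0 q r)}) key
  refine (PrE_mono h0 h1 ?_).trans (h2.trans ?_)
  · rintro G _ ⟨z, hz, hm, hG⟩
    obtain ⟨H, hH, H', hH', he⟩ := heavy_mem_union (q := q) hS hz
    refine ⟨(H, H'), mem_product.2 ⟨hH, hH'⟩, ?_⟩
    change m * (n - r).choose (q - r) ≤ (H ∪ H').card * c0 q r ∧
      ((G ∩ (H ∪ H')).card : ℝ) ≤ X / (2 * c0 q r)
    rw [← he]
    exact ⟨hm, hG⟩
  · refine mul_le_mul_of_nonneg_right ?_ (Real.exp_pos _).le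
    rw [card_product]
    have : 𝓗.card * 𝓗.card ≤ (n.choose q + 1) ^ (2 * (K * m)) := by
      rw [two_mul, pow_add]
      exact Nat.mul_le_mul hcard hcard
    exact_mod_cast this

/-- The failure event for `m` and `S`. -/
def Fail (n q r : ℕ) (p : ℝ) (m : ℕ) (S : Finset (Finset (Fin n))) :
    Set (Finset (Finset (Fin n))) :=
  {G | ∃ z : Finset (Fin n) → ℝ, (∀ R, R ∉ S → z R = 0) ∧
    m * (n - r).choose (q - r) ≤ (heavy n q r z).card * c0 q r ∧
    ((G ∩ heavy n q r z).card : ℝ) ≤ p * (m * (n - r).choose (q - r)) / (2 * c0 q r)}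

/-- The failure event for `m`. -/
def FailM (n q r K : ℕ) (p : ℝ) (m : ℕ) : Set (Finset (Finset (Fin n))) :=
  {G | ∃ S ∈ (Blk n r).powerset.filter (fun F => F.card ≤ K * m), G ∈ Fail n q r p m S}

theorem pow_id (a b x : ℝ) (K m : ℕ) : ((a * b ^ 2) ^ K * Real.exp (-x)) ^ m =
    a ^ (K * m) * (b ^ (2 * (K * m)) * Real.exp (-(m * x))) := by
  rw [mul_pow, ← Real.exp_nat_mul, ← pow_mul, mul_pow, ← pow_mul, mul_assoc, mul_neg]

theorem sum_S {n q r K m : ℕ} (hqr : r ≤ q) {p : ℝ} (h0 : 0 ≤ p) (h1 : p ≤ 1) :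
    PrE (Blk n q) p (FailM n q r K p m) ≤
      ((((n.choose r + 1 : ℕ) : ℝ) * ((n.choose q + 1 : ℕ) : ℝ) ^ 2) ^ K *
      Real.exp (-(p * (n - r).choose (q - r) / (16 * c0 q r)))) ^ m := by
  have hcr : (Blk n r).card = n.choose r := by
    rw [card_powersetCard, card_univ, Fintype.card_fin]
  refine (PrE_exists_le h0 h1 _ _ (b := ((n.choose q + 1 : ℕ) : ℝ) ^ (2 * (K * m)) *
      Real.exp (-(p * (m * (n - r).choose (q - r)) / (16 * c0 q r)))) ?_).trans ?_
  · intro S hS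
    rw [mem_filter, mem_powerset] at hS
    exact fixed_prob hqr h0 h1 hS.1 hS.2
  · have h3 : (((Blk n r).powerset.filter (fun F => F.card ≤ K * m)).card : ℝ) ≤
        ((n.choose r + 1 : ℕ) : ℝ) ^ (K * m) := by
      have := small_subsets (Blk n r) (K * m)
      rw [hcr] at this
      exact_mod_cast this
    rw [pow_id]
    have e : (m : ℝ) * (p * (n - r).choose (q - r) / (16 * c0 q r)) =
        p * (m * (n - r).choose (q - r)) / (16 * c0 q r) := by ring
    rw [e]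
    exact mul_le_mul_of_nonneg_right h3 (by positivity)

theorem good1_sub {n q r K : ℕ} {p : ℝ} {G : Finset (Finset (Fin n))}
    (hG : ¬ Good1 n q r K p G) :
    ∃ m ∈ Icc 1 (n.choose r), G ∈ FailM n q r K p m := by
  unfold Good1 at hG
  push Not at hG
  obtain ⟨m, hm, S, hS, hc, z, hz, h7, h8⟩ := hG
  exact ⟨m, hm, S, mem_filter.2 ⟨mem_powerset.2 hS, hc⟩, z, hz, h7, h8⟩

theorem good1_prob {n q r K : ℕ} (hqr : r ≤ q) {p : ℝ} (h0 : 0 ≤ p) (h1 : p ≤ 1) {ρ : ℝ}
    (hρd : (((n.choose r + 1 : ℕ) : ℝ) * ((n.choose q + 1 : ℕ) : ℝ) ^ 2) ^ K *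
      Real.exp (-(p * (n - r).choose (q - r) / (16 * c0 q r))) ≤ ρ) (hρ : ρ ≤ 1) :
    PrE (Blk n q) p {G | ¬ Good1 n q r K p G} ≤ n.choose r * ρ := by
  obtain ⟨x, hx⟩ : ∃ x, x = (((n.choose r + 1 : ℕ) : ℝ) * ((n.choose q + 1 : ℕ) : ℝ) ^ 2) ^ K *
      Real.exp (-(p * (n - r).choose (q - r) / (16 * c0 q r))) := ⟨_, rfl⟩
  have hx0 : 0 ≤ x := by
    rw [hx]
    positivity
  rw [← hx] at hρd
  have hρ0 : 0 ≤ ρ := le_trans hx0 hρd
  have hA : ∀ m ∈ Icc 1 (n.choose r), PrE (Blk n q) p (FailM n q r K p m) ≤ ρ := by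
    intro m hm
    rw [mem_Icc] at hm
    have h3 := sum_S (n := n) (K := K) (m := m) hqr h0 h1
    rw [← hx] at h3
    refine h3.trans ((pow_le_pow_left₀ hx0 hρd m).trans ?_)
    exact pow_le_of_le_one hρ0 hρ (by omega)
  have h6 := PrE_exists_le h0 h1 (Icc 1 (n.choose r)) (FailM n q r K p) hA
  have hc : (Icc 1 (n.choose r)).card = n.choose r := by simp
  rw [hc] at h6
  exact (PrE_mono h0 h1 fun G _ hG => good1_sub hG).trans h6

end Pool.Agent.MP4a7415
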