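import Pool.Agent.Lib.MP_4a7415_co.Dual

/-! # Above the threshold -/

namespace Pool.Agent.MP4a7415

open Finset Filter Topology

/-- The two good events give the integer solution. -/
theorem good_int {n q r : ℕ} (hqr : r ≤ q) (hn : q + r ≤ n) {p ε : ℝ} (h0 : 0 < p)
    (hε : 0 < ε) {G : Finset (Finset (Fin n))} (hGq : G ⊆ Blk n q)
    (hG1 : Good1 n q r (2 * cL q r) p G)
    (hG2 : Good2 n q r p (min ε 1 / (32 * cB q r * c0 q r)) G) :
    ∃ lam : ℕ, 0 < lam ∧ ∃ W : Finset (Fin n) → ℕ,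
      (∀ R : Finset (Fin n), R.card = r → ∑ e ∈ G with R ⊆ e, W e = lam) ∧
      ∀ e ∈ G, |(W e : ℝ) * (p * (n - r).choose (q - r)) - lam| ≤ ε * lam := by
  classical
  have hc0 : (0 : ℝ) < c0 q r := by exact_mod_cast c0_pos hqr
  have hB : (0 : ℝ) < cB q r := by exact_mod_cast cB_pos q r
  obtain ⟨D, hD⟩ : ∃ D, D = p * ((n - r).choose (q - r) : ℝ) := ⟨_, rfl⟩
  have hD0 : 0 < D := by
    rw [hD]
    refine mul_pos h0 ?_
    exact_mod_cast Nat.choose_pos (by omega)
  obtain ⟨ε1, hε1⟩ : ∃ ε1 : ℝ, ε1 = min ε 1 / 2 := ⟨_, rfl⟩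
  have hm0 : 0 < min ε 1 := lt_min hε one_pos
  have hε10 : 0 < ε1 := by
    rw [hε1]
    positivity
  have hε11 : ε1 ≤ 1 / 2 := by
    rw [hε1]
    have := min_le_right ε 1
    linarith
  have hε12 : 2 * ε1 ≤ ε := by
    rw [hε1]
    have := min_le_left ε 1
    linarith
  have hco : ∀ y : Finset (Fin n) → ℝ,
      (1 / (8 * cB q r * c0 q r)) * D * ∑ R ∈ Blk n r, |y R| ≤ ∑ e ∈ G, |ev r y e| := by
    intro y
    have h1 := coer hqr hn h0.le hG1 y
    rw [← hD] at h1
    have h2 : (1 / (8 * cB q r * c0 q r)) * D * ∑ R ∈ Blk n r, |y R| =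
        (D * ∑ R ∈ Blk n r, |y R|) / (8 * cB q r * c0 q r) := by ring
    rw [h2, div_le_iff₀ (by positivity)]
    linarith
  have hdeg : ∀ R ∈ Blk n r, |((G.filter (fun e => R ⊆ e)).card : ℝ) - D| ≤
      (min ε 1 / (32 * cB q r * c0 q r)) * D := by
    intro R hR
    have h1 := hG2 R hR
    rw [← hD] at h1
    have h2 : G ∩ (Blk n q).filter (fun e => R ⊆ e) = G.filter (fun e => R ⊆ e) := by
      ext e
      simp only [mem_inter, mem_filter]
      constructor
      · rintro ⟨h3, -, h4⟩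
        exact ⟨h3, h4⟩
      · rintro ⟨h3, h4⟩
        exact ⟨h3, hGq h3, h4⟩
    rw [h2] at h1
    exact h1
  obtain ⟨w, hw1, hw2⟩ := exists_real hD0 (c := 1 / (8 * cB q r * c0 q r))
    (δ := min ε 1 / (32 * cB q r * c0 q r)) (ε := ε1) (by
      have h3 : 1 / (8 * (cB q r : ℝ) * c0 q r) * ε1 =
          2 * (min ε 1 / (32 * cB q r * c0 q r)) := by
        rw [hε1]
        field_simp
        ring
      rw [h3]
      have : 0 < min ε 1 / (32 * (cB q r : ℝ) * c0 q r) := by positivity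
      linarith) hε10.le hco hdeg
  have hpos : ∀ e ∈ G, ε1 / D ≤ w e := by
    intro e _
    have h1 := (abs_le.1 (hw1 e)).1
    have h2 : ε1 / D + ε1 / D ≤ 1 / D := by
      rw [← add_div, div_le_div_iff_of_pos_right hD0]
      linarith
    linarith
  obtain ⟨lam, hlam, W, hW1, hW2⟩ := exists_int hw2 (η := ε1 / D) (by positivity) hpos
  refine ⟨lam, hlam, W, fun R hR => hW1 R (mem_powersetCard.2 ⟨subset_univ _, hR⟩), ?_⟩
  intro e he
  rw [← hD]
  have h1 := hW2 e he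
  have h2 := hw1 e
  have hl0 : (0 : ℝ) ≤ lam := Nat.cast_nonneg _
  have h3 : (W e : ℝ) * D - lam = D * ((W e : ℝ) - lam * w e) + lam * (D * (w e - 1 / D)) := by
    field_simp
    ring
  rw [h3]
  refine (abs_add_le _ _).trans ?_
  rw [abs_mul, abs_mul, abs_mul, abs_of_pos hD0, abs_of_nonneg hl0]
  have h4 : D * |(W e : ℝ) - lam * w e| ≤ ε1 * lam := by
    have := mul_le_mul_of_nonneg_left h1 hD0.le
    have e1 : D * (ε1 / D * lam) = ε1 * lam := by field_simp
    linarith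
  have h5 : (lam : ℝ) * (D * |w e - 1 / D|) ≤ lam * ε1 := by
    refine mul_le_mul_of_nonneg_left ?_ hl0
    have := mul_le_mul_of_nonneg_left h2 hD0.le
    have e1 : D * (ε1 / D) = ε1 := by field_simp
    linarith
  have h6 : 2 * ε1 * lam ≤ ε * lam := mul_le_mul_of_nonneg_right hε12 hl0
  linarith

theorem choose_succ_le {n k q : ℕ} (hq : 2 ≤ q) (hk : k ≤ q) (hn : 2 ≤ n) :
    n.choose k + 1 ≤ n ^ q := by
  rcases Nat.lt_or_ge k 2 with h | h
  · have h1 : n.choose k ≤ n := by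
      interval_cases k
      · simp
        omega
      · simp
    have h2 : n ^ 2 ≤ n ^ q := Nat.pow_le_pow_right (by omega) hq
    nlinarith
  · have h1 := Nat.choose_le_pow_div (α := ℝ) k n
    have h2 : (2 : ℝ) ≤ k.factorial := by
      have : Nat.factorial 2 ≤ k.factorial := Nat.factorial_le h
      exact_mod_cast this
    have h3 : (n.choose k : ℝ) ≤ (n : ℝ) ^ k / 2 := by
      refine h1.trans ?_
      exact div_le_div_of_nonneg_left (by positivity) (by norm_num) h2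
    have h4 : (n : ℝ) ^ k ≤ (n : ℝ) ^ q := pow_le_pow_right₀ (by exact_mod_cast (by omega)) hk
    have h5 : (2 : ℝ) ≤ (n : ℝ) ^ q := by
      have : 2 ^ 1 ≤ n ^ q := by
        calc 2 ^ 1 ≤ 2 ^ q := Nat.pow_le_pow_right (by norm_num) (by omega)
          _ ≤ n ^ q := Nat.pow_le_pow_left hn _
      exact_mod_cast this
    have h6 : ((n.choose k + 1 : ℕ) : ℝ) ≤ ((n ^ q : ℕ) : ℝ) := by
      push_cast
      linarith
    exact_mod_cast h6

theorem exp_neg_mul_log {n : ℕ} (hn : 0 < n) (k : ℕ) :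
    Real.exp (-(k * Real.log n)) = 1 / (n : ℝ) ^ k := by
  have : (0 : ℝ) < n := by exact_mod_cast hn
  rw [Real.exp_neg, ← Real.log_pow, Real.exp_log (by positivity), one_div]

/-- The bound above the threshold. -/
theorem one_bound {q r : ℕ} (hr : 1 ≤ r) (hqr : r < q) {ε : ℝ} (hε : 0 < ε) :
    ∃ C : ℝ, 0 < C ∧ ∀ᶠ n : ℕ in atTop, ∀ p : ℝ, p ≤ 1 →
      C * (Real.log n / (n : ℝ) ^ (q - r)) ≤ p →
      1 - 3 / (n : ℝ) ≤ PrE (Blk n q) p {G | ∃ lam : ℕ, 0 < lam ∧
        ∃ W : Finset (Fin n) → ℕ,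
        (∀ R : Finset (Fin n), R.card = r → ∑ e ∈ G with R ⊆ e, W e = lam) ∧
        ∀ e ∈ G, |(W e : ℝ) * (p * (n - r).choose (q - r)) - lam| ≤ ε * lam} := by
  have hc0 : (0 : ℝ) < c0 q r := by exact_mod_cast c0_pos hqr.le
  have hB : (0 : ℝ) < cB q r := by exact_mod_cast cB_pos q r
  obtain ⟨δ, hδ⟩ : ∃ δ : ℝ, δ = min ε 1 / (32 * cB q r * c0 q r) := ⟨_, rfl⟩
  have hδ0 : 0 < δ := by
    rw [hδ]
    have : 0 < min ε 1 := lt_min hε one_pos
    positivity
  have hδ1 : δ ≤ 2 := by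
    rw [hδ]
    have h1 : (1 : ℝ) ≤ cB q r := by exact_mod_cast cB_pos q r
    have h2 : (1 : ℝ) ≤ c0 q r := by exact_mod_cast c0_pos hqr.le
    have h3 : (1 : ℝ) ≤ cB q r * c0 q r := one_le_mul_of_one_le_of_one_le h1 h2
    rw [div_le_iff₀ (by positivity)]
    have := min_le_right ε 1
    nlinarith
  -- the constants
  obtain ⟨K, hK⟩ : ∃ K : ℕ, K = 2 * cL q r := ⟨_, rfl⟩
  obtain ⟨C1, hC1⟩ : ∃ C1 : ℝ, C1 = 16 * c0 q r * (3 * q * K + q + 1) + 4 * (r + 1) / δ ^ 2 :=
    ⟨_, rfl⟩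
  have hC10 : 0 < C1 := by
    rw [hC1]
    positivity
  refine ⟨C1 * (2 ^ (q - r) * (q - r).factorial), by positivity, ?_⟩
  filter_upwards [eventually_ge_atTop (2 * q)] with n hn p h1 hp
  have hn2 : 2 ≤ n := by omega
  have hn0 : (0 : ℝ) < n := by exact_mod_cast (by omega : 0 < n)
  have hn1 : (1 : ℝ) ≤ n := by exact_mod_cast (by omega : 1 ≤ n)
  have hl0 : 0 < Real.log n := Real.log_pos (by exact_mod_cast hn2)
  have hp0 : 0 < p := lt_of_lt_of_le (by positivity) hp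
  obtain ⟨D, hD⟩ : ∃ D, D = p * ((n - r).choose (q - r) : ℝ) := ⟨_, rfl⟩
  -- the mean degree
  have hDC : C1 * Real.log n ≤ D := by
    have h2 := Nat.pow_le_choose (α := ℝ) (q - r) (n - r)
    have h3 : ((n : ℝ) / 2) ^ (q - r) ≤ (((n - r + 1 - (q - r) : ℕ) : ℝ)) ^ (q - r) := by
      refine pow_le_pow_left₀ (by positivity) ?_ _
      have : n ≤ 2 * (n - r + 1 - (q - r)) := by omega
      have : (n : ℝ) ≤ 2 * ((n - r + 1 - (q - r) : ℕ) : ℝ) := by exact_mod_cast this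
      linarith
    have hf : (0 : ℝ) < (q - r).factorial := by exact_mod_cast Nat.factorial_pos _
    have h4 : ((n : ℝ) / 2) ^ (q - r) / (q - r).factorial ≤ (n - r).choose (q - r) :=
      (div_le_div_of_nonneg_right h3 hf.le).trans h2
    rw [hD]
    have h5 := mul_le_mul hp h4 (by positivity) hp0.le
    refine le_trans (le_of_eq ?_) h5
    rw [div_pow]
    field_simp
  have hlow : (16 * c0 q r * (3 * q * K + q + 1)) * Real.log n ≤ D ∧
      (4 * (r + 1) / δ ^ 2) * Real.log n ≤ D := by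
    rw [hC1, add_mul] at hDC
    have e1 : 0 ≤ (16 * c0 q r * (3 * q * K + q + 1)) * Real.log n := by positivity
    have e2 : 0 ≤ (4 * (r + 1) / δ ^ 2) * Real.log n := by positivity
    constructor <;> linarith
  -- first event
  have hch : (n.choose r : ℝ) ≤ (n : ℝ) ^ r := by
    exact_mod_cast Nat.choose_le_pow n r
  have g1 : PrE (Blk n q) p {G | ¬ Good1 n q r K p G} ≤ 1 / n := by
    have hρ1 : 1 / (n : ℝ) ^ (q + 1) ≤ 1 := by
      rw [div_le_one (by positivity)]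
      exact one_le_pow₀ hn1
    refine (good1_prob hqr.le hp0.le h1 (ρ := 1 / (n : ℝ) ^ (q + 1)) ?_ hρ1).trans ?_
    · rw [← hD]
      have e1 : ((n.choose r + 1 : ℕ) : ℝ) ≤ (n : ℝ) ^ q := by
        exact_mod_cast choose_succ_le (by omega) hqr.le hn2
      have e2 : ((n.choose q + 1 : ℕ) : ℝ) ≤ (n : ℝ) ^ q := by
        exact_mod_cast choose_succ_le (by omega) le_rfl hn2
      have e3 : (((n.choose r + 1 : ℕ) : ℝ) * ((n.choose q + 1 : ℕ) : ℝ) ^ 2) ^ K ≤
          ((n : ℝ) ^ q * ((n : ℝ) ^ q) ^ 2) ^ K := by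
        refine pow_le_pow_left₀ (by positivity) ?_ _
        exact mul_le_mul e1 (pow_le_pow_left₀ (by positivity) e2 2) (by positivity)
          (by positivity)
      have e4 : ((n : ℝ) ^ q * ((n : ℝ) ^ q) ^ 2) ^ K = Real.exp ((3 * q * K : ℕ) * Real.log n) := by
        rw [← Real.log_pow, Real.exp_log (by positivity)]
        ring
      rw [e4] at e3
      refine (mul_le_mul_of_nonneg_right e3 (Real.exp_pos _).le).trans ?_
      rw [← Real.exp_add, ← exp_neg_mul_log (by omega) (q + 1), Real.exp_le_exp]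
      have e5 : (3 * q * K + q + 1) * Real.log n ≤ D / (16 * c0 q r) := by
        rw [le_div_iff₀ (by positivity)]
        linarith [hlow.1]
      push_cast
      linarith
    · have e6 : (n.choose r : ℝ) * (1 / (n : ℝ) ^ (q + 1)) ≤
          (n : ℝ) ^ r * (1 / (n : ℝ) ^ (q + 1)) :=
        mul_le_mul_of_nonneg_right hch (by positivity)
      refine e6.trans ?_
      have e7 : (n : ℝ) ^ (r + 1) ≤ (n : ℝ) ^ (q + 1) := pow_le_pow_right₀ hn1 (by omega)
      rw [mul_one_div, div_le_div_iff₀ (by positivity) hn0, one_mul, ← pow_succ]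
      exact e7
  -- second event
  have g2 : PrE (Blk n q) p {G | ¬ Good2 n q r p δ G} ≤ 2 / n := by
    refine (good2_prob hqr.le hp0.le h1 hδ0.le hδ1).trans ?_
    rw [← hD]
    have e1 : Real.exp (-(δ ^ 2 / 4 * D)) ≤ 1 / (n : ℝ) ^ (r + 1) := by
      rw [← exp_neg_mul_log (by omega) (r + 1), Real.exp_le_exp, neg_le_neg_iff]
      have e2 := mul_le_mul_of_nonneg_left hlow.2 (show 0 ≤ δ ^ 2 / 4 by positivity)
      refine le_trans (le_of_eq ?_) e2
      push_cast
      field_simp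
    have e3 : (n.choose r : ℝ) * (2 * Real.exp (-(δ ^ 2 / 4 * D))) ≤
        (n : ℝ) ^ r * (2 * (1 / (n : ℝ) ^ (r + 1))) :=
      mul_le_mul hch (by linarith) (by positivity) (by positivity)
    refine e3.trans (le_of_eq ?_)
    rw [pow_succ]
    field_simp
  -- conclusion
  have hbad : PrE (Blk n q) p {G | ∃ lam : ℕ, 0 < lam ∧
        ∃ W : Finset (Fin n) → ℕ,
        (∀ R : Finset (Fin n), R.card = r → ∑ e ∈ G with R ⊆ e, W e = lam) ∧
        ∀ e ∈ G, |(W e : ℝ) * (p * (n - r).choose (q - r)) - lam| ≤ ε * lam}ᶜ ≤ 3 / n := by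
    refine (PrE_mono hp0.le h1 (B := {G | ¬ Good1 n q r K p G} ∪
      {G | ¬ Good2 n q r p δ G}) ?_).trans ((PrE_union hp0.le h1 _ _).trans ?_)
    · intro G hGq hG
      by_contra hc
      rw [Set.mem_union, not_or] at hc
      have hg1 : Good1 n q r (2 * cL q r) p G := by
        rw [← hK]
        exact not_not.1 hc.1
      have hg2 : Good2 n q r p (min ε 1 / (32 * cB q r * c0 q r)) G := by
        rw [← hδ]
        exact not_not.1 hc.2
      exact hG (good_int hqr.le (by omega) hp0 hε hGq hg1 hg2)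
    · have : (3 : ℝ) / n = 1 / n + 2 / n := by ring
      linarith
  have hcompl := PrE_compl (Blk n q) p {G | ∃ lam : ℕ, 0 < lam ∧
        ∃ W : Finset (Fin n) → ℕ,
        (∀ R : Finset (Fin n), R.card = r → ∑ e ∈ G with R ⊆ e, W e = lam) ∧
        ∀ e ∈ G, |(W e : ℝ) * (p * (n - r).choose (q - r)) - lam| ≤ ε * lam}
  linarith

end Pool.Agent.MP4a7415
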